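import Pool.Agent.ECK.Defs

/-!
# The cyclic system of a closed element, in words

`ab [k₁,…,k_r] = a b^{k₁} ⋯ a b^{k_r}` (`a = 0`, `b = 1`).  `NSys w D N`: the function `N` on words
of length `w + 1` with `D` letters `b` is cyclic, `N(a ·)` is killed by the shuffles, `N` satisfies
the harmonic relations, and it vanishes on the words `ab l` whose entries are at most `1`, with the
exception of at most one entry which may be `2`.
-/

set_option autoImplicit false

namespace Pool.Agent.ECV

open Pool.Agent.ECB

/-- The word `a b^{k₁} ⋯ a b^{k_r}`. -/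
def ab : List ℕ → List (Fin 2)
  | [] => []
  | k :: l => 0 :: (List.replicate k 1 ++ ab l)

@[simp] theorem ab_nil : ab [] = [] := rfl

theorem ab_cons (k : ℕ) (l : List ℕ) : ab (k :: l) = 0 :: (List.replicate k 1 ++ ab l) := rfl

theorem ab_append (u v : List ℕ) : ab (u ++ v) = ab u ++ ab v := by
  induction u with
  | nil => rfl
  | cons k u ih => rw [List.cons_append, ab_cons, ih, ab_cons]; simp

theorem count_zero_ab (l : List ℕ) : (ab l).count 0 = l.length := by
  induction l with
  | nil => rfl
  | cons k l ih =>
    rw [ab_cons, List.count_cons_self, List.count_append, ih, List.count_replicate,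
      List.length_cons]
    simp

theorem count_one_ab (l : List ℕ) : (ab l).count 1 = l.sum := by
  induction l with
  | nil => rfl
  | cons k l ih =>
    rw [ab_cons, List.count_cons_of_ne (by decide), List.count_append, ih,
      List.count_replicate_self, List.sum_cons]

theorem length_ab (l : List ℕ) : (ab l).length = l.length + l.sum := by
  induction l with
  | nil => rfl
  | cons k l ih =>
    rw [ab_cons, List.length_cons, List.length_append, ih, List.length_replicate,
      List.length_cons, List.sum_cons]
    omega

/-- The cyclic system. -/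
structure NSys (w D : ℕ) (N : List (Fin 2) → ZMod 2) : Prop where
  len : ∀ W, W.length ≠ w + 1 → N W = 0
  dep : ∀ W : List (Fin 2), W.count 1 ≠ D → N W = 0
  cyc : ∀ u v, N (u ++ v) = N (v ++ u)
  lie : ∀ u v, u ≠ [] → v ≠ [] → sh (fun W => N (0 :: W)) u v = 0
  har : ∀ V : List (Fin 2), 0 ∈ V → 1 ∈ V → V.length < w + 1 →
    Pool.Agent.ECK.bt (w + 2) V N = 0
  p0 : ∀ u v : List ℕ, ∀ k : ℕ, (∀ i ∈ u, i ≤ 1) → (∀ i ∈ v, i ≤ 1) → k ≤ 2 →
    N (ab (u ++ k :: v)) = 0

theorem length_eq_count (W : List (Fin 2)) : W.length = W.count 0 + W.count 1 := by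
  induction W with
  | nil => rfl
  | cons a W ih =>
    fin_cases a
    · show (0 :: W).length = (0 :: W).count 0 + (0 :: W).count 1
      rw [List.length_cons, List.count_cons_self, List.count_cons_of_ne (by decide), ih]; omega
    · show (1 :: W).length = (1 :: W).count 0 + (1 :: W).count 1
      rw [List.length_cons, List.count_cons_self, List.count_cons_of_ne (by decide), ih]; omega

/-- A word starting with `a` is of the form `ab l`. -/
theorem exists_ab (W : List (Fin 2)) : ∃ (k : ℕ) (l : List ℕ), W = List.replicate k 1 ++ ab l := by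
  induction W with
  | nil => exact ⟨0, [], rfl⟩
  | cons a W ih =>
    obtain ⟨k, l, h⟩ := ih
    fin_cases a
    · exact ⟨0, k :: l, by rw [h]; rfl⟩
    · exact ⟨k + 1, l, by rw [h]; rfl⟩

namespace NSys
variable {w D : ℕ} {N : List (Fin 2) → ZMod 2}

/-- It is enough to know `N` on the words `ab l`. -/
theorem eq_zero_of_ab (h : NSys w D N) (hD : D ≤ w)
    (H : ∀ l : List ℕ, l.length = w + 1 - D → l.sum = D → N (ab l) = 0) (W : List (Fin 2)) :
    N W = 0 := by
  by_cases h1 : W.length = w + 1
  swap
  · exact h.len W h1
  by_cases h2 : W.count 1 = D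
  swap
  · exact h.dep W h2
  obtain ⟨k, l, rfl⟩ := exists_ab W
  have h3 := length_eq_count (List.replicate k 1 ++ ab l)
  rcases List.eq_nil_or_concat l with rfl | ⟨l', j, rfl⟩
  · exfalso
    simp only [ab_nil, List.append_nil, List.length_replicate, List.count_replicate_self] at h1 h2
    omega
  · have h4 : List.replicate k (1 : Fin 2) ++ ab (l'.concat j) =
        List.replicate k 1 ++ ab (l' ++ [j]) := by simp
    rw [h4, h.cyc]
    have h5 : ab (l' ++ [j]) ++ List.replicate k 1 = ab (l' ++ [j + k]) := by
      rw [ab_append, ab_append, ab_cons, ab_cons, ab_nil, List.append_nil, List.append_nil,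
        List.append_assoc, List.cons_append, ← List.replicate_add]
    rw [h5]
    rw [h4] at h1 h2 h3
    apply H
    · rw [h1, h2, List.count_append, List.count_replicate, count_zero_ab] at h3
      simp at h3 ⊢
      omega
    · rw [List.count_append, List.count_replicate_self, count_one_ab] at h2
      simp at h2 ⊢
      omega

/-- The case of one letter `a`. -/
theorem r_one (h : NSys w w N) (hw : 2 ≤ w) (W : List (Fin 2)) : N W = 0 := by
  apply h.eq_zero_of_ab le_rfl
  intro l hl hs
  obtain ⟨k, rfl⟩ : ∃ k, l = [k] := by
    rw [show w + 1 - w = 1 by omega] at hl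
    exact List.length_eq_one_iff.1 hl
  simp only [List.sum_singleton] at hs
  subst hs
  have h1 := h.har [0, 1] (by simp) (by simp) (by simp; omega)
  have h2 : Pool.Agent.ECK.bt (k + 2) [0, 1] N =
      ∑ j ∈ Finset.range (k + 2), N (0 :: 1 :: (List.replicate j 1 ++ [])) := rfl
  rw [h2, Finset.sum_eq_single (k - 1)] at h1
  · rw [ab_cons, ab_nil]
    have h3 : List.replicate k (1 : Fin 2) = 1 :: List.replicate (k - 1) 1 := by
      rw [← List.replicate_succ]; congr 1; omega
    rw [h3]
    exact h1
  · intro j _ hj
    apply h.len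
    simp
    omega
  · intro hk
    exfalso; apply hk
    rw [Finset.mem_range]; omega

end NSys

end Pool.Agent.ECV
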