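import Pool.Agent.ECV.Har
import Pool.Agent.ECV.NSys

/-!
# The cyclic system of the lowest depth part

`nsys`: if `c ∈ redM w 2` vanishes on the words `cy v` and on the words with less than `d` letters
`1`, then the part of `Nf c` with `d + 1` letters `1` is an `NSys w (d + 1)`.
-/

set_option autoImplicit false

namespace Pool.Agent.ECV

open Pool.Agent.ECK
open Pool.Agent.ECB

/-- Every letter `1` of `t`, and a letter `1` following `t`, is preceded by a letter `0`; the
Boolean tells whether the letter before `t` is `0`. -/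
def good : Bool → List (Fin 2) → Prop
  | b, [] => b = true
  | b, a :: t => if a = 0 then good true t else (b = true ∧ good false t)

theorem good_nil (b : Bool) : good b [] ↔ b = true := Iff.rfl
theorem good_zero (b : Bool) (t : List (Fin 2)) : good b (0 :: t) ↔ good true t := Iff.rfl
theorem good_one (b : Bool) (t : List (Fin 2)) : good b (1 :: t) ↔ (b = true ∧ good false t) :=
  Iff.rfl

theorem good_mono {b : Bool} {t : List (Fin 2)} (h : good b t) : good true t := by
  cases t with
  | nil => rfl
  | cons a t =>
    fin_cases a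
    · exact h
    · exact ⟨rfl, h.2⟩

theorem good_rep (m : ℕ) : good true (List.replicate m 0) := by
  induction m with
  | zero => rfl
  | succ m ih => exact ih

theorem good_shf {m : ℕ} : ∀ {s : List (Fin 2)} {b : Bool}, good b s → ∀ t ∈
    shf (List.replicate m 0) s, good b t := by
  induction m with
  | zero =>
    intro s b h t ht
    rw [List.replicate_zero, shf_nil_left, List.mem_singleton] at ht
    rw [ht]; exact h
  | succ m ihm =>
    intro s
    induction s with
    | nil =>
      intro b h t ht
      rw [shf_nil_right, List.mem_singleton] at ht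
      rw [ht, List.replicate_succ]
      exact good_rep m
    | cons x s ihs =>
      intro b h t ht
      rw [List.replicate_succ, shf_cons_cons, List.mem_append, List.mem_map, List.mem_map] at ht
      rcases ht with ⟨t', ht', rfl⟩ | ⟨t', ht', rfl⟩
      · exact ihm (good_mono h) t' ht'
      · fin_cases x
        · exact ihs (b := true) h t' ht'
        · exact ⟨h.1, ihs (b := false) h.2 t' ht'⟩

theorem exists_cy_of_good {t : List (Fin 2)} : ∀ {b : Bool}, good b t →
    ∃ (k : ℕ) (v : List ℕ), t ++ [1] = List.replicate k 0 ++ 1 :: cy v ∧ (b = false → 1 ≤ k) := by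
  induction t with
  | nil =>
    intro b h
    refine ⟨0, [], rfl, ?_⟩
    rintro rfl
    exact absurd h (by simp [good_nil])
  | cons a t ih =>
    intro b h
    fin_cases a
    · obtain ⟨k, v, h1, -⟩ := ih (b := true) h
      refine ⟨k + 1, v, ?_, fun _ => by omega⟩
      show 0 :: (t ++ [1]) = _
      rw [h1]; rfl
    · obtain ⟨k, v, h1, h2⟩ := ih (b := false) h.2
      refine ⟨0, (k - 1) :: v, ?_, ?_⟩
      · show 1 :: (t ++ [1]) = 1 :: (List.replicate (k - 1 + 1) 0 ++ 1 :: cy v)
        rw [h1, Nat.sub_add_cancel (h2 rfl)]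
      · rintro rfl
        exact absurd h.1 (by decide)

theorem good_cy {t : List (Fin 2)} (h : good false t) : ∃ v : List ℕ, t ++ [1] = cy v := by
  obtain ⟨k, v, h1, h2⟩ := exists_cy_of_good h
  refine ⟨(k - 1) :: v, ?_⟩
  rw [h1]
  show _ = List.replicate (k - 1 + 1) 0 ++ 1 :: cy v
  rw [Nat.sub_add_cancel (h2 rfl)]

theorem good_rep_append (m : ℕ) {b : Bool} {t : List (Fin 2)} (h : good true t) (hb : b = true ∨ 1 ≤ m) :
    good b (List.replicate m 0 ++ t) := by
  induction m generalizing b with
  | zero =>
    rcases hb with rfl | hb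
    · exact h
    · omega
  | succ m ih => exact ih (b := true) (Or.inl rfl)

theorem cy_good {v : List ℕ} (hv : v ≠ []) : ∃ s, cy v = s ++ [1] ∧ good false s := by
  induction v with
  | nil => exact absurd rfl hv
  | cons k v ih =>
    rcases v with _ | ⟨j, v⟩
    · refine ⟨List.replicate (k + 1) 0, rfl, ?_⟩
      have := good_rep_append (k + 1) (b := false) (t := []) rfl (Or.inr (by omega))
      rwa [List.append_nil] at this
    · obtain ⟨s, h1, h2⟩ := ih (by simp)
      refine ⟨List.replicate (k + 1) 0 ++ 1 :: s, ?_, ?_⟩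
      · show List.replicate (k + 1) 0 ++ 1 :: cy (j :: v) = _
        rw [h1]; simp
      · exact good_rep_append (k + 1) ⟨rfl, h2⟩ (Or.inr (by omega))

/-- Words `W a^j`, `W` without unit. -/
theorem cy_zeros {f : Fn} (hsh : ∀ u v : List (Fin 2), u ≠ [] → v ≠ [] → sh f u v = 0)
    (hz : ∀ n, f (List.replicate n 0) = 0) (hv : ∀ v, f (cy v) = 0) (j : ℕ) :
    ∀ v, f (cy v ++ List.replicate j 0) = 0 := by
  induction j using Nat.strong_induction_on with
  | _ j ih =>
    intro v
    by_cases hv0 : v = []
    · subst hv0
      exact hz j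
    obtain ⟨s, h1, h2⟩ := cy_good hv0
    have claim : ∀ i ≤ j, sh (fun t => f (t ++ List.replicate i 0)) (List.replicate (j - i) 0)
        (s ++ [1]) = 0 := by
      intro i
      induction i with
      | zero =>
        intro _
        by_cases hj : j = 0
        · subst hj
          simp only [List.replicate_zero, Nat.sub_zero, List.append_nil, sh_nil_left]
          rw [← h1]; exact hv v
        · simp only [List.replicate_zero, List.append_nil, Nat.sub_zero]
          apply hsh
          · intro h; rw [List.replicate_eq_nil_iff] at h; exact hj h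
          · simp
      | succ i ihi =>
        intro hi
        have h3 := ihi (by omega)
        have h4 : List.replicate (j - i) (0 : Fin 2) = List.replicate (j - (i + 1)) 0 ++ [0] := by
          rw [← List.replicate_succ']; congr 1; omega
        rw [h4, sh_snoc_snocF] at h3
        have h5 : sh (fun t => f (t ++ [1] ++ List.replicate i 0))
            (List.replicate (j - (i + 1)) 0 ++ [0]) s = 0 := by
          rw [← List.replicate_succ']
          refine Eq.trans (sh_congr (c' := fun _ => 0) _ _ ?_) (sh_zeroF _ _)
          intro t ht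
          obtain ⟨v', hv'⟩ := good_cy (good_shf h2 t ht)
          show f (t ++ [1] ++ List.replicate i 0) = 0
          rw [hv']
          exact ih i (by omega) v'
        rw [h5, add_zero] at h3
        rw [← h3]
        apply sh_congr
        intro t _
        show f (t ++ List.replicate (i + 1) 0) = f (t ++ [0] ++ List.replicate i 0)
        rw [List.replicate_succ, List.append_assoc]; rfl
    have h6 := claim j le_rfl
    rw [Nat.sub_self, List.replicate_zero, sh_nil_left, ← h1] at h6
    exact h6

theorem ab_zero_form (l : List ℕ) (hl : ∀ i ∈ l, i ≤ 1) : ∀ m : ℕ, ∃ (v : List ℕ) (j : ℕ),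
    List.replicate m 0 ++ (ab l ++ [0]) = cy v ++ List.replicate j 0 := by
  induction l with
  | nil =>
    intro m
    refine ⟨[], m + 1, ?_⟩
    rw [ab_nil, List.nil_append, ← List.replicate_succ']; rfl
  | cons k l ih =>
    have ih' := ih (fun i hi => hl i (List.mem_cons_of_mem _ hi))
    intro m
    have hk := hl k (by simp)
    rcases Nat.le_one_iff_eq_zero_or_eq_one.1 hk with rfl | rfl
    · obtain ⟨v, j, h⟩ := ih' (m + 1)
      refine ⟨v, j, ?_⟩
      rw [← h, ab_cons, List.replicate_zero, List.nil_append, List.replicate_succ',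
        List.append_assoc]
      rfl
    · obtain ⟨v, j, h⟩ := ih' 0
      rw [List.replicate_zero, List.nil_append] at h
      refine ⟨m :: v, j, ?_⟩
      show List.replicate m 0 ++ (0 :: ([1] ++ ab l) ++ [0]) =
        (List.replicate (m + 1) 0 ++ 1 :: cy v) ++ List.replicate j 0
      have e1 : (List.replicate (m + 1) 0 ++ 1 :: cy v) ++ List.replicate j (0 : Fin 2) =
          List.replicate (m + 1) 0 ++ 1 :: (cy v ++ List.replicate j 0) := by simp
      rw [e1, ← h, List.replicate_succ']
      simp

theorem good_snoc0 {s : List (Fin 2)} : ∀ {b : Bool}, good b s → good b (s ++ [0]) := by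
  induction s with
  | nil => intro b _; rfl
  | cons a s ih =>
    intro b h
    fin_cases a
    · exact ih (b := true) h
    · exact ⟨h.1, ih (b := false) h.2⟩

theorem good_snoc10 {s : List (Fin 2)} : ∀ {b : Bool}, good b s → good b (s ++ [1, 0]) := by
  induction s with
  | nil => intro b h; exact ⟨h, rfl⟩
  | cons a s ih =>
    intro b h
    fin_cases a
    · exact ih (b := true) h
    · exact ⟨h.1, ih (b := false) h.2⟩

theorem good_ab_reverse (l : List ℕ) (hl : ∀ i ∈ l, i ≤ 1) : good true (ab l).reverse := by
  induction l with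
  | nil => rfl
  | cons k l ih =>
    have ih' := ih (fun i hi => hl i (List.mem_cons_of_mem _ hi))
    have hk := hl k (by simp)
    rcases Nat.le_one_iff_eq_zero_or_eq_one.1 hk with rfl | rfl
    · have : (ab (0 :: l)).reverse = (ab l).reverse ++ [0] := by simp [ab_cons]
      rw [this]; exact good_snoc0 ih'
    · have : (ab (1 :: l)).reverse = (ab l).reverse ++ [1, 0] := by simp [ab_cons]
      rw [this]; exact good_snoc10 ih'

section main
variable {w d : ℕ} {c : Fn}

theorem dpart_cyc (hc : c ∈ redM w 2) (hw : 2 ≤ w) (m : ℕ) (u v : List (Fin 2)) :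
    dpart m (Nf c) (u ++ v) = dpart m (Nf c) (v ++ u) := by
  unfold dpart
  rw [Nf_cyc hc hw u v, List.count_append, List.count_append, add_comm]

theorem dpart_p0 (hc : c ∈ redM w 2) (hw : 3 ≤ w) (hv : ∀ v : List ℕ, c (cy v) = 0)
    (hd : ∀ l : List (Fin 2), l.count 1 < d → c l = 0) (u v : List ℕ) (k : ℕ)
    (hu : ∀ i ∈ u, i ≤ 1) (hv1 : ∀ i ∈ v, i ≤ 1) (hk : k ≤ 2) (hk1 : 1 ≤ k) :
    dpart (d + 1) (Nf c) (ab (u ++ k :: v)) = 0 := by
  have h1 : ab (u ++ k :: v) = (ab u ++ [0]) ++ (List.replicate k 1 ++ ab v) := by
    rw [ab_append, ab_cons]; simp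
  rw [h1, dpart_cyc hc (by omega)]
  have h2 : (List.replicate k 1 ++ ab v) ++ (ab u ++ [0]) =
      1 :: (List.replicate (k - 1) 1 ++ (ab (v ++ u) ++ [0])) := by
    obtain ⟨k, rfl⟩ : ∃ k', k = k' + 1 := ⟨k - 1, by omega⟩
    rw [List.replicate_succ, ab_append, Nat.add_sub_cancel]; simp
  rw [h2]
  show (if _ then Nf c _ else 0) = 0
  split_ifs with h3
  swap
  · rfl
  rw [List.count_cons_self] at h3
  have h4 : (List.replicate (k - 1) 1 ++ (ab (v ++ u) ++ [0])).count 1 = d := by omega
  rw [Nf_one_cons hd h4]
  have hl : ∀ i ∈ v ++ u, i ≤ 1 := by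
    intro i hi
    rcases List.mem_append.1 hi with hi | hi
    · exact hv1 i hi
    · exact hu i hi
  rcases (by omega : k = 1 ∨ k = 2) with rfl | rfl
  · obtain ⟨v', j, h5⟩ := ab_zero_form (v ++ u) hl 0
    rw [List.replicate_zero, List.nil_append] at h5
    show c ([] ++ (ab (v ++ u) ++ [0])) = 0
    rw [List.nil_append, h5]
    exact cy_zeros (fun u v hu hv => redM_sh hc hu hv) (fun n => redM_zeros hc n) hv j v'
  · show c ([1] ++ (ab (v ++ u) ++ [0])) = 0
    rw [← redM_revF hc]
    have h6 : ([1] ++ (ab (v ++ u) ++ [0])).reverse = (0 :: (ab (v ++ u)).reverse) ++ [1] := by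
      simp
    rw [h6]
    obtain ⟨v', h7⟩ := good_cy (t := 0 :: (ab (v ++ u)).reverse) (good_ab_reverse _ hl)
    rw [h7]
    exact hv v'

/-- The cyclic system of the lowest depth part. -/
theorem nsys (hc : c ∈ redM w 2) (hw : 3 ≤ w) (hv : ∀ v : List ℕ, c (cy v) = 0)
    (hd : ∀ l : List (Fin 2), l.count 1 < d → c l = 0) :
    NSys w (d + 1) (dpart (d + 1) (Nf c)) := by
  refine ⟨?_, ?_, ?_, ?_, ?_, ?_⟩
  · intro W hW
    show (if _ then Nf c _ else 0) = 0
    rw [Nf_length hc hW, ite_self]
  · intro W hW
    exact if_neg hW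
  · exact dpart_cyc hc (by omega) _
  · intro u v hu hv'
    by_cases h : u.count 1 + v.count 1 = d + 1
    · rw [← Nf_sh hc 0 u v hu hv']
      apply sh_congr
      intro t ht
      apply if_pos
      rw [List.count_cons_of_ne (by decide), (perm_of_mem_shf u v t ht).count_eq,
        List.count_append, h]
    · refine Eq.trans (sh_congr (c' := fun _ => 0) _ _ ?_) (sh_zeroF u v)
      intro t ht
      apply if_neg
      rw [List.count_cons_of_ne (by decide), (perm_of_mem_shf u v t ht).count_eq,
        List.count_append]
      exact h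
  · intro V h0 h1 hV
    apply har hc (by omega) hd _ V h0 h1 hV
    have h2 := hv [w - 2]
    have h3 : cy [w - 2] = List.replicate (w - 1) 0 ++ [1] := by
      show List.replicate (w - 2 + 1) 0 ++ [1] = _
      rw [show w - 2 + 1 = w - 1 by omega]
    rw [h3] at h2
    exact h2
  · intro u v k hu hv1 hk
    rcases Nat.eq_zero_or_pos k with rfl | hk1
    swap
    · exact dpart_p0 hc hw hv hd u v k hu hv1 hk hk1
    by_cases h : (ab (u ++ 0 :: v)).count 1 = d + 1
    swap
    · exact if_neg h
    rw [count_one_ab, List.sum_append, List.sum_cons, zero_add] at h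
    have hex : (∃ i ∈ u, i = 1) ∨ (∃ i ∈ v, i = 1) := by
      by_contra hne
      push Not at hne
      have h1 : u.sum = 0 := by
        apply List.sum_eq_zero
        intro i hi
        have := hu i hi
        have := hne.1 i hi
        omega
      have h2 : v.sum = 0 := by
        apply List.sum_eq_zero
        intro i hi
        have := hv1 i hi
        have := hne.2 i hi
        omega
      omega
    rcases hex with ⟨i, hi, rfl⟩ | ⟨i, hi, rfl⟩
    · obtain ⟨u1, u2, rfl⟩ := List.append_of_mem hi
      have h5 : (u1 ++ 1 :: u2) ++ 0 :: v = u1 ++ 1 :: (u2 ++ 0 :: v) := by simp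
      rw [h5]
      apply dpart_p0 hc hw hv hd _ _ _ _ _ (by omega) le_rfl
      · intro i hi'; exact hu i (by simp [hi'])
      · intro i hi'
        rcases List.mem_append.1 hi' with h6 | h6
        · exact hu i (by simp [h6])
        · rcases List.mem_cons.1 h6 with rfl | h6
          · omega
          · exact hv1 i h6
    · obtain ⟨v1, v2, rfl⟩ := List.append_of_mem hi
      have h5 : u ++ 0 :: (v1 ++ 1 :: v2) = (u ++ 0 :: v1) ++ 1 :: v2 := by simp
      rw [h5]
      apply dpart_p0 hc hw hv hd _ _ _ _ _ (by omega) le_rfl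
      · intro i hi'
        rcases List.mem_append.1 hi' with h6 | h6
        · exact hu i h6
        · rcases List.mem_cons.1 h6 with rfl | h6
          · omega
          · exact hv1 i (by simp [h6])
      · intro i hi'; exact hv1 i (by simp [hi'])

end main

end Pool.Agent.ECV
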