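import Mathlib
import Pool.Agent.ECB.Shuf

/-!
# Multilinear evaluation

`Ev B gs K = ∑_{k_i < B} ∏ g_i(k_i) K(k)`.
-/

set_option autoImplicit false

namespace Pool.Agent.ECV

open Pool.Agent.ECB Finset

section
variable {S : Type*} [CommRing S]

/-- `Ev B [g₁,…,g_n] K = ∑_{k_i < B} g₁(k₁)⋯g_n(k_n) K [k₁,…,k_n]`. -/
def Ev (B : ℕ) : List (ℕ → S) → (List ℕ → S) → S
  | [], K => K []
  | g :: gs, K => ∑ k ∈ range B, g k * Ev B gs (fun l => K (k :: l))

/-- The weight `k ↦ x^k`. -/
def pw (x : S) : ℕ → S := fun k => x ^ k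

/-- The weight `x^k` plus `c` times `x^{k-1}` for `k ≥ 1`. -/
def tw (c x : S) : ℕ → S
  | 0 => 1
  | k + 1 => x ^ k * (x + c)

/-- The weight which extracts the coefficient `i`. -/
def dl (i : ℕ) : ℕ → S := fun k => if k = i then 1 else 0

/-- The vertices of a path. -/
def vt (x : S) : List S → List S
  | [] => []
  | a :: w => (x + a) :: vt (x + a) w

@[simp] theorem Ev_nil (B : ℕ) (K : List ℕ → S) : Ev B [] K = K [] := rfl

theorem Ev_cons (B : ℕ) (g : ℕ → S) (gs : List (ℕ → S)) (K : List ℕ → S) :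
    Ev B (g :: gs) K = ∑ k ∈ range B, g k * Ev B gs (fun l => K (k :: l)) := rfl

theorem Ev_zero (B : ℕ) (gs : List (ℕ → S)) : Ev B gs (fun _ => 0) = 0 := by
  induction gs with
  | nil => rfl
  | cons g gs ih => rw [Ev_cons]; simp [ih]

theorem Ev_add (B : ℕ) (gs : List (ℕ → S)) (K K' : List ℕ → S) :
    Ev B gs (fun l => K l + K' l) = Ev B gs K + Ev B gs K' := by
  induction gs generalizing K K' with
  | nil => rfl
  | cons g gs ih =>
    rw [Ev_cons, Ev_cons, Ev_cons, ← sum_add_distrib]
    apply sum_congr rfl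
    intro k _
    rw [ih, mul_add]

theorem Ev_smul (B : ℕ) (gs : List (ℕ → S)) (a : S) (K : List ℕ → S) :
    Ev B gs (fun l => a * K l) = a * Ev B gs K := by
  induction gs generalizing K with
  | nil => rfl
  | cons g gs ih =>
    rw [Ev_cons, Ev_cons, mul_sum]
    apply sum_congr rfl
    intro k _
    rw [ih]; ring

theorem Ev_sum (B : ℕ) (gs : List (ℕ → S)) {ι : Type*} (s : Finset ι) (K : ι → List ℕ → S) :
    Ev B gs (fun l => ∑ i ∈ s, K i l) = ∑ i ∈ s, Ev B gs (K i) := by
  classical
  induction s using Finset.induction_on with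
  | empty => simp [Ev_zero]
  | insert i s hi ih =>
    rw [sum_insert hi, ← ih, ← Ev_add]
    congr 1
    funext l
    rw [sum_insert hi]

/-- Only the values on lists of the right length with entries `< B` matter. -/
theorem Ev_congr (B : ℕ) (gs : List (ℕ → S)) (K K' : List ℕ → S)
    (h : ∀ l : List ℕ, l.length = gs.length → (∀ k ∈ l, k < B) → K l = K' l) :
    Ev B gs K = Ev B gs K' := by
  induction gs generalizing K K' with
  | nil => exact h [] rfl (by simp)
  | cons g gs ih =>
    rw [Ev_cons, Ev_cons]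
    apply sum_congr rfl
    intro k hk
    rw [ih]
    intro l hl hlB
    apply h
    · simp [hl]
    · intro i hi
      rcases List.mem_cons.1 hi with rfl | hi
      · exact mem_range.1 hk
      · exact hlB i hi

theorem Ev_eq_zero (B : ℕ) (gs : List (ℕ → S)) (K : List ℕ → S)
    (h : ∀ l : List ℕ, l.length = gs.length → (∀ k ∈ l, k < B) → K l = 0) :
    Ev B gs K = 0 := by
  rw [Ev_congr B gs K (fun _ => 0) h, Ev_zero]

theorem Ev_append (B : ℕ) (gs hs : List (ℕ → S)) (K : List ℕ → S) :
    Ev B (gs ++ hs) K = Ev B gs (fun l => Ev B hs (fun l' => K (l ++ l'))) := by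
  induction gs generalizing K with
  | nil => rfl
  | cons g gs ih =>
    rw [List.cons_append, Ev_cons, Ev_cons]
    apply sum_congr rfl
    intro k _
    rw [ih]
    rfl

/-- Additivity in a slot. -/
theorem Ev_slot_add (B : ℕ) (gs hs : List (ℕ → S)) (g g' : ℕ → S) (K : List ℕ → S) :
    Ev B (gs ++ (g + g') :: hs) K = Ev B (gs ++ g :: hs) K + Ev B (gs ++ g' :: hs) K := by
  rw [Ev_append, Ev_append, Ev_append, ← Ev_add]
  congr 1
  funext l
  rw [Ev_cons, Ev_cons, Ev_cons, ← sum_add_distrib]
  apply sum_congr rfl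
  intro k _
  rw [Pi.add_apply, add_mul]

theorem Ev_slot_smul (B : ℕ) (gs hs : List (ℕ → S)) (a : S) (g : ℕ → S) (K : List ℕ → S) :
    Ev B (gs ++ (a • g) :: hs) K = a * Ev B (gs ++ g :: hs) K := by
  rw [Ev_append, Ev_append, ← Ev_smul]
  congr 1
  funext l
  rw [Ev_cons, Ev_cons, mul_sum]
  apply sum_congr rfl
  intro k _
  rw [Pi.smul_apply, smul_eq_mul, mul_assoc]

theorem Ev_dl_cons (B i : ℕ) (hi : i < B) (gs : List (ℕ → S)) (K : List ℕ → S) :
    Ev B (dl i :: gs) K = Ev B gs (fun l => K (i :: l)) := by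
  rw [Ev_cons, sum_eq_single i]
  · simp [dl]
  · intro k _ hk
    simp [dl, hk]
  · intro h
    exact absurd (mem_range.2 hi) h

/-- The last slot. -/
theorem Ev_last (B : ℕ) (gs : List (ℕ → S)) (h : ℕ → S) (K : List ℕ → S) :
    Ev B (gs ++ [h]) K = ∑ k ∈ range B, h k * Ev B gs (fun l => K (l ++ [k])) := by
  rw [Ev_append]
  have : ∀ l : List ℕ, Ev B [h] (fun l' => K (l ++ l')) = ∑ k ∈ range B, h k * K (l ++ [k]) := by
    intro l
    rw [Ev_cons]
    apply sum_congr rfl
    intro k _
    rfl
  simp only [this]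
  rw [Ev_sum]
  apply sum_congr rfl
  intro k _
  rw [Ev_smul]

theorem Ev_map {T : Type*} [CommRing T] (f : S →+* T) (B : ℕ) (gs : List (ℕ → S))
    (K : List ℕ → S) :
    f (Ev B gs K) = Ev B (gs.map (fun g k => f (g k))) (fun l => f (K l)) := by
  induction gs generalizing K with
  | nil => rfl
  | cons g gs ih =>
    rw [List.map_cons, Ev_cons, Ev_cons, map_sum]
    apply sum_congr rfl
    intro k _
    rw [map_mul, ih]

theorem map_pw {T : Type*} [CommRing T] (f : S →+* T) (x : S) :
    (fun k => f (pw x k)) = pw (f x) := by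
  funext k; simp [pw]

theorem map_tw {T : Type*} [CommRing T] (f : S →+* T) (c x : S) :
    (fun k => f (tw c x k)) = tw (f c) (f x) := by
  funext k
  cases k with
  | zero => simp [tw]
  | succ k => simp [tw]

@[simp] theorem vt_nil (x : S) : vt x [] = [] := rfl

theorem vt_cons (x a : S) (w : List S) : vt x (a :: w) = (x + a) :: vt (x + a) w := rfl

@[simp] theorem length_vt (x : S) (w : List S) : (vt x w).length = w.length := by
  induction w generalizing x with
  | nil => rfl
  | cons a w ih => rw [vt_cons, List.length_cons, ih, List.length_cons]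

theorem vt_append (x : S) (u w : List S) : vt x (u ++ w) = vt x u ++ vt (x + u.sum) w := by
  induction u generalizing x with
  | nil => simp
  | cons a u ih => rw [List.cons_append, vt_cons, ih, vt_cons, List.cons_append, List.sum_cons,
      add_assoc]

theorem map_vt {T : Type*} [CommRing T] (f : S →+* T) (x : S) (w : List S) :
    (vt x w).map f = vt (f x) (w.map f) := by
  induction w generalizing x with
  | nil => rfl
  | cons a w ih => rw [vt_cons, List.map_cons, List.map_cons, ih, vt_cons, map_add]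

theorem tw_zero_left (x : S) : tw 0 x = pw x := by
  funext k
  cases k with
  | zero => simp [tw, pw]
  | succ k => simp [tw, pw, pow_succ]

theorem tw_self [CharP S 2] (c : S) : tw c c = dl 0 := by
  funext k
  cases k with
  | zero => simp [tw, dl]
  | succ k => simp [tw, dl, CharTwo.add_self_eq_zero]

theorem tw_zero_right (c : S) : tw c 0 = dl 0 + c • dl 1 := by
  funext k
  match k with
  | 0 => simp [tw, dl]
  | 1 => simp [tw, dl]
  | k + 2 => simp [tw, dl]

end

end Pool.Agent.ECV
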