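import Mathlib
import Pool.Agent.ECV.Ev

/-!
# Shuffle sums: linearity, maps, splitting at a letter
-/

set_option autoImplicit false

namespace Pool.Agent.ECV

open Pool.Agent.ECB Finset

section
variable {α β : Type*} {S : Type*} [CommRing S]

theorem sh_cons_left' (c : List α → S) (a b : α) (u v : List α) : sh c (a :: u) (b :: v) =
    sh (fun t => c (a :: t)) u (b :: v) + sh (fun t => c (b :: t)) (a :: u) v :=
  sh_cons_cons c a b u v

theorem sh_zero (u v : List α) : sh (fun _ => (0 : S)) u v = 0 := by
  rw [sh]; simp

theorem sh_smul (a : S) (c : List α → S) (u v : List α) :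
    sh (fun t => a * c t) u v = a * sh c u v := by
  rw [sh, sh, List.sum_map_mul_left]

theorem sh_sum {ι : Type*} (s : Finset ι) (c : ι → List α → S) (u v : List α) :
    sh (fun t => ∑ i ∈ s, c i t) u v = ∑ i ∈ s, sh (c i) u v := by
  classical
  induction s using Finset.induction_on with
  | empty => simp [sh_zero]
  | insert i s hi ih =>
    rw [sum_insert hi, ← ih, ← sh_add]
    congr 1
    funext l
    rw [sum_insert hi]

theorem shf_map (f : α → β) (u v : List α) :
    shf (u.map f) (v.map f) = (shf u v).map (List.map f) := by
  induction u generalizing v with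
  | nil => simp
  | cons a u ihu =>
    induction v with
    | nil => simp
    | cons b v ihv =>
      have h1 := ihu (b :: v)
      simp only [List.map_cons] at h1 ihv ⊢
      rw [shf_cons_cons, shf_cons_cons, h1, ihv]
      simp [List.map_map, Function.comp_def]

theorem sh_map_list (f : α → β) (c : List β → S) (u v : List α) :
    sh c (u.map f) (v.map f) = sh (fun t => c (t.map f)) u v := by
  rw [sh, sh, shf_map, List.map_map]
  rfl

theorem sh_map_ring {T : Type*} [CommRing T] (f : S →+* T) (c : List α → S) (u v : List α) :
    f (sh c u v) = sh (fun t => f (c t)) u v := by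
  rw [sh, sh, map_list_sum, List.map_map]
  rfl

theorem cons_mem_shf_left (a : α) {u v t : List α} (h : t ∈ shf u v) :
    a :: t ∈ shf (a :: u) v := by
  cases v with
  | nil => simp at h; simp [h]
  | cons b v =>
    rw [shf_cons_cons, List.mem_append]
    left
    exact List.mem_map.2 ⟨t, h, rfl⟩

theorem cons_mem_shf_right (b : α) {u v t : List α} (h : t ∈ shf u v) :
    b :: t ∈ shf u (b :: v) := by
  cases u with
  | nil => simp at h; simp [h]
  | cons a u =>
    rw [shf_cons_cons, List.mem_append]
    right
    exact List.mem_map.2 ⟨t, h, rfl⟩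

/-- If the terms in which a letter of `P` is inserted after `X` vanish, the letters of `P` may be
inserted before `X` only. -/
theorem sh_split (c : List α → S) (P W V : List α) (X : α)
    (h : ∀ P₁ P₂, P = P₁ ++ P₂ → P₂ ≠ [] → ∀ u ∈ shf P₁ W, ∀ v ∈ shf P₂ V, c (u ++ X :: v) = 0) :
    sh c P (W ++ X :: V) = sh (fun u => c (u ++ X :: V)) P W := by
  induction W generalizing c P with
  | nil =>
    simp only [List.nil_append, sh_nil_right]
    induction P generalizing c with
    | nil => simp
    | cons p P ih =>
      rw [sh_cons_cons, ih]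
      · have : sh (fun t => c (X :: t)) (p :: P) V = 0 := by
          rw [sh]
          apply List.sum_eq_zero
          intro x hx
          obtain ⟨t, ht, rfl⟩ := List.mem_map.1 hx
          exact h [] (p :: P) rfl (by simp) [] (by simp) t ht
        rw [this, add_zero]
        rfl
      · intro P₁ P₂ hP hP₂ u hu v hv
        exact h (p :: P₁) P₂ (by rw [hP]; rfl) hP₂ (p :: u) (cons_mem_shf_left p hu) v hv
  | cons a W ihW =>
    induction P generalizing c with
    | nil => simp
    | cons p P ihP =>
      rw [List.cons_append, sh_cons_cons, sh_cons_cons]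
      congr 1
      · apply ihP
        intro P₁ P₂ hP hP₂ u hu v hv
        exact h (p :: P₁) P₂ (by rw [hP]; rfl) hP₂ (p :: u) (cons_mem_shf_left p hu) v hv
      · apply ihW
        intro P₁ P₂ hP hP₂ u hu v hv
        exact h P₁ P₂ hP hP₂ (a :: u) (cons_mem_shf_right a hu) v hv

/-- Changing weights of the slots one by one. -/
theorem conv {M : Type*} [Add M] (a b : M) (m : ℕ) (Φ : List M → S)
    (hadd : ∀ gs hs (g g' : M), Φ (gs ++ (g + g') :: hs) = Φ (gs ++ g :: hs) + Φ (gs ++ g' :: hs))
    (h : ∀ hs, hs.length = m → (∀ g ∈ hs, g = a ∨ g = b) → Φ hs = 0) :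
    ∀ us vs, us.length + vs.length = m → (∀ g ∈ us, g = a ∨ g = a + b) →
      (∀ g ∈ vs, g = a ∨ g = b) → Φ (us ++ vs) = 0 := by
  intro us
  induction us using List.reverseRecOn with
  | nil => intro vs hl _ hv; simpa using h vs (by simpa using hl) hv
  | append_singleton us x ih =>
    intro vs hl hu hv
    rw [List.append_assoc, List.singleton_append]
    have hu' : ∀ g ∈ us, g = a ∨ g = a + b := fun g hg => hu g (by simp [hg])
    have hl' : ∀ y : M, us.length + (y :: vs).length = m := by
      intro y
      simp only [List.length_append, List.length_cons, List.length_nil] at hl ⊢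
      omega
    have hx := hu x (by simp)
    have ha : Φ (us ++ a :: vs) = 0 := by
      apply ih _ (hl' a) hu'
      intro g hg
      rcases List.mem_cons.1 hg with rfl | hg
      · left; rfl
      · exact hv g hg
    have hb : Φ (us ++ b :: vs) = 0 := by
      apply ih _ (hl' b) hu'
      intro g hg
      rcases List.mem_cons.1 hg with rfl | hg
      · right; rfl
      · exact hv g hg
    rcases hx with rfl | rfl
    · exact ha
    · rw [hadd, ha, hb, add_zero]

end

end Pool.Agent.ECV
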