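import Mathlib
import Pool.Agent.ECV.Sh

/-!
# The window lemma (lemma A)
-/

set_option autoImplicit false

namespace Pool.Agent.ECV

open Pool.Agent.ECB Finset

/-- The hypothesis of lemma A: the transform of `K` is killed by all shuffles with a nonempty word
in the letters `0`, `c`. -/
def RelA (B n : ℕ) (K : List ℕ → ZMod 2) : Prop :=
  ∀ (S : Type) [CommRing S] [IsDomain S] [Algebra (ZMod 2) S] (x c : S) (P W : List S),
    x ≠ 0 → c ≠ 0 → x + c ≠ 0 → P ≠ [] → (∀ p ∈ P, p = 0 ∨ p = c) → P.length + W.length = n →
    sh (fun w => Ev B (pw x :: (vt x w).map (tw c)) (fun l => algebraMap (ZMod 2) S (K l))) P W = 0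

section
variable {S : Type} [CommRing S]

theorem char2 (S : Type) [CommRing S] [Algebra (ZMod 2) S] (x : S) : x + x = 0 := by
  have h : (algebraMap (ZMod 2) S) (1 + 1) = 0 := by
    have : (1 + 1 : ZMod 2) = 0 := by decide
    rw [this, map_zero]
  rw [map_add, map_one] at h
  calc x + x = (1 + 1) * x := by ring
    _ = 0 := by rw [h, zero_mul]

theorem tw_self' [Algebra (ZMod 2) S] (c : S) : tw c c = dl 0 := by
  funext k
  cases k with
  | zero => simp [tw, dl]
  | succ k => simp [tw, dl, char2 S]

/-- The letters of the path with given vertices. -/
def df (x : S) : List S → List S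
  | [] => []
  | v :: vs => (x + v) :: df v vs

@[simp] theorem length_df (x : S) (vs : List S) : (df x vs).length = vs.length := by
  induction vs generalizing x with
  | nil => rfl
  | cons v vs ih => rw [df, List.length_cons, ih, List.length_cons]

theorem vt_df [Algebra (ZMod 2) S] (x : S) (vs : List S) : vt x (df x vs) = vs := by
  induction vs generalizing x with
  | nil => rfl
  | cons v vs ih =>
    have h : x + (x + v) = v := by rw [← add_assoc, char2 S, zero_add]
    rw [df, vt_cons, h, ih]

theorem sum_df [Algebra (ZMod 2) S] (x y : S) (vs : List S) :
    x + (df x (vs ++ [y])).sum = y := by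
  induction vs generalizing x with
  | nil =>
    simp only [List.nil_append, df, List.sum_cons, List.sum_nil, add_zero]
    rw [← add_assoc, char2 S, zero_add]
  | cons v vs ih =>
    rw [List.cons_append, df, List.sum_cons, ← add_assoc, ← add_assoc, char2 S, zero_add, ih]

/-- `0` or `c`. -/
def Sm (c : S) (x : S) : Prop := x = 0 ∨ x = c

theorem Sm.add [Algebra (ZMod 2) S] {c x y : S} (hx : Sm c x) (hy : Sm c y) : Sm c (x + y) := by
  rcases hx with rfl | rfl <;> rcases hy with rfl | rfl
  · left; simp
  · right; simp
  · right; simp
  · left; exact char2 S _

theorem Sm.sum [Algebra (ZMod 2) S] {c : S} (l : List S) (h : ∀ x ∈ l, Sm c x) : Sm c l.sum := by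
  induction l with
  | nil => left; rfl
  | cons a l ih =>
    rw [List.sum_cons]
    exact (h a (by simp)).add (ih (fun x hx => h x (by simp [hx])))

theorem Sm.df [Algebra (ZMod 2) S] {c x : S} (hx : Sm c x) (vs : List S) (h : ∀ v ∈ vs, Sm c v) :
    ∀ p ∈ df x vs, Sm c p := by
  induction vs generalizing x with
  | nil => intro p hp; simp [ECV.df] at hp
  | cons v vs ih =>
    intro p hp
    rw [ECV.df, List.mem_cons] at hp
    have hv := h v (by simp)
    rcases hp with rfl | hp
    · exact hx.add hv
    · exact ih hv (fun v hv => h v (by simp [hv])) p hp

theorem Sm.vt [Algebra (ZMod 2) S] {c x : S} (hx : Sm c x) (w : List S) (h : ∀ v ∈ w, Sm c v) :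
    ∀ p ∈ vt x w, Sm c p := by
  induction w generalizing x with
  | nil => intro p hp; simp at hp
  | cons a w ih =>
    intro p hp
    rw [vt_cons, List.mem_cons] at hp
    have ha := h a (by simp)
    rcases hp with rfl | hp
    · exact hx.add ha
    · exact ih (hx.add ha) (fun v hv => h v (by simp [hv])) p hp

theorem tw_small_eq_zero [Algebra (ZMod 2) S] {c v : S} (hv : Sm c v) (k : ℕ) :
    tw c v (k + 2) = 0 := by
  rcases hv with rfl | rfl
  · simp [tw]
  · simp [tw, char2 S]

/-- The evaluation at small vertices only sees exponents `0`, `1`. -/
theorem Ev_small [Algebra (ZMod 2) S] (B : ℕ) {c : S} (L : List S) (hL : ∀ v ∈ L, Sm c v)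
    (K : List ℕ → S) (h : ∀ e : List ℕ, e.length = L.length → (∀ i ∈ e, i < 2) → K e = 0) :
    Ev B (L.map (tw c)) K = 0 := by
  induction L generalizing K with
  | nil => exact h [] rfl (by simp)
  | cons v L ih =>
    rw [List.map_cons, Ev_cons]
    apply sum_eq_zero
    intro k _
    by_cases hk : k < 2
    · rw [ih (fun v hv => hL v (by simp [hv])), mul_zero]
      intro e he hi
      apply h
      · simp [he]
      · intro i hi'
        rcases List.mem_cons.1 hi' with rfl | hi'
        · exact hk
        · exact hi i hi'
    · obtain ⟨m, rfl⟩ : ∃ m, k = m + 2 := ⟨k - 2, by omega⟩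
      rw [tw_small_eq_zero (hL v (by simp)), zero_mul]

/-- The weight for the exponent `e ∈ {0,1}`. -/
def we (c : S) (e : ℕ) : ℕ → S := if e = 0 then dl 0 else c • dl 1

theorem Ev_we (B : ℕ) (hB : 2 ≤ B) (c : S) (e : List ℕ) (he : ∀ i ∈ e, i < 2) (K : List ℕ → S) :
    Ev B (e.map (we c)) K = c ^ e.sum * K e := by
  induction e generalizing K with
  | nil => simp
  | cons i e ih =>
    have ih' := ih (fun i hi => he i (by simp [hi]))
    have hi : i < 2 := he i (by simp)
    rw [List.map_cons, List.sum_cons]
    rcases (by omega : i = 0 ∨ i = 1) with rfl | rfl
    · rw [we, if_pos rfl, Ev_dl_cons B 0 (by omega), ih', zero_add]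
    · rw [we, if_neg (by decide)]
      have := Ev_slot_smul B [] (e.map (we c)) c (dl 1) K
      rw [List.nil_append, List.nil_append] at this
      rw [this, Ev_dl_cons B 1 (by omega), ih', pow_add, pow_one, mul_assoc]

end

/-- Abbreviation: the coefficients in `S`. -/
def al (S : Type) [CommRing S] [Algebra (ZMod 2) S] (K : List ℕ → ZMod 2) : List ℕ → S :=
  fun l => algebraMap (ZMod 2) S (K l)

/-- The relation for the first slots, the last vertex being `ηc`. -/
def RelZ (B n : ℕ) (η : ZMod 2) (H : List ℕ → ZMod 2) : Prop :=
  ∀ (S : Type) [CommRing S] [IsDomain S] [Algebra (ZMod 2) S] (x c : S) (P W : List S),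
    c ≠ 0 → P ≠ [] → (∀ p ∈ P, p = 0 ∨ p = c) → P.length + W.length = n →
    x + P.sum + W.sum = algebraMap (ZMod 2) S η * c →
    sh (fun w => Ev B (pw x :: (vt x w).dropLast.map (tw c)) (al S H)) P W = 0

theorem sm_eta {S : Type} [CommRing S] [Algebra (ZMod 2) S] (η : ZMod 2) (c : S) :
    Sm c (algebraMap (ZMod 2) S η * c) := by
  have : η = 0 ∨ η = 1 := by
    revert η; decide
  rcases this with rfl | rfl
  · left; simp
  · right; simp

/-- Passing from the weights of small vertices to the exponents. -/
theorem conv_e {S : Type} [CommRing S] [Algebra (ZMod 2) S] (c : S) (m : ℕ)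
    (Φ : List (ℕ → S) → S)
    (hadd : ∀ gs hs (g g' : ℕ → S), Φ (gs ++ (g + g') :: hs) = Φ (gs ++ g :: hs) + Φ (gs ++ g' :: hs))
    (h : ∀ vs : List S, vs.length = m → (∀ v ∈ vs, Sm c v) → Φ (vs.map (tw c)) = 0)
    (e : List ℕ) (he : e.length = m) (hi : ∀ i ∈ e, i < 2) : Φ (e.map (we c)) = 0 := by
  have key := conv (S := S) (dl 0) (tw c 0) m Φ hadd (by
    intro hs hl hg
    have : ∃ vs : List S, hs = vs.map (tw c) ∧ ∀ v ∈ vs, Sm c v := by
      clear hl h
      induction hs with
      | nil => exact ⟨[], rfl, by simp⟩
      | cons g hs ih =>
        obtain ⟨vs, rfl, hvs⟩ := ih (fun g hg' => hg g (by simp [hg']))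
        rcases hg g (by simp) with rfl | rfl
        · refine ⟨c :: vs, ?_, ?_⟩
          · rw [List.map_cons, tw_self']
          · intro v hv
            rcases List.mem_cons.1 hv with rfl | hv
            · right; rfl
            · exact hvs v hv
        · refine ⟨0 :: vs, ?_, ?_⟩
          · rw [List.map_cons]
          · intro v hv
            rcases List.mem_cons.1 hv with rfl | hv
            · left; rfl
            · exact hvs v hv
    obtain ⟨vs, rfl, hvs⟩ := this
    exact h vs (by simpa using hl) hvs)
  have := key (e.map (we c)) [] (by simpa using he) (by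
    intro g hg
    obtain ⟨i, hi', rfl⟩ := List.mem_map.1 hg
    have := hi i hi'
    rcases (by omega : i = 0 ∨ i = 1) with rfl | rfl
    · left; rfl
    · right
      rw [we, if_neg (by decide), tw_zero_right, ← add_assoc]
      have h2 : (dl 0 : ℕ → S) + dl 0 = 0 := by
        funext k; exact char2 S _
      rw [h2, zero_add]) (by simp)
  simpa using this

theorem lemZ (B n : ℕ) (hB : 2 ≤ B) (hn : 1 ≤ n) (η : ZMod 2)
    (ih : ∀ j, 1 ≤ j → j < n → ∀ K, RelA B j K →
      ∀ l : List ℕ, l.length = j + 1 → (∀ k ∈ l, k < B) → K l = 0)
    (H : List ℕ → ZMod 2) (hH : RelZ B n η H) :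
    ∀ l : List ℕ, l.length = n → (∀ k ∈ l, k < B) → H l = 0 := by
  -- the claim `(Z_j)`
  have claim : ∀ j, ∀ k e : List ℕ, k.length = j + 1 → (∀ i ∈ k, i < B) →
      k.length + e.length = n → (∀ i ∈ e, i < 2) → H (k ++ e) = 0 := by
    intro j
    induction j using Nat.strong_induction_on with
    | _ j IH =>
      intro k e hk hkB hke he
      rcases Nat.eq_zero_or_pos j with h0 | h0
      · -- `j = 0`
        subst h0
        obtain ⟨k0, rfl⟩ : ∃ k0, k = [k0] := by
          match k, hk with
          | [k0], _ => exact ⟨k0, rfl⟩
        have hXne : (Polynomial.X : Polynomial (ZMod 2)) ≠ 0 := Polynomial.X_ne_zero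
        have key := conv_e (S := Polynomial (ZMod 2)) Polynomial.X e.length
          (fun hs => Ev B (pw Polynomial.X :: hs) (al _ H))
          (fun gs hs g g' => Ev_slot_add B (pw Polynomial.X :: gs) hs g g' _)
          (by
            intro vs hl hvs
            set y : Polynomial (ZMod 2) := algebraMap (ZMod 2) _ η * Polynomial.X with hy
            have hsy : Sm Polynomial.X y := sm_eta η _
            have hall : ∀ v ∈ vs ++ [y], Sm Polynomial.X v := by
              intro v hv
              rcases List.mem_append.1 hv with hv | hv
              · exact hvs v hv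
              · rw [List.mem_singleton.1 hv]; exact hsy
            have h1 := hH (Polynomial (ZMod 2)) Polynomial.X Polynomial.X
              (df Polynomial.X (vs ++ [y])) [] hXne
              (by
                intro h
                have := congrArg List.length h
                simp at this)
              (Sm.df (Or.inr rfl) _ hall)
              (by
                simp only [length_df, List.length_append, List.length_cons, List.length_nil]
                simp only [List.length_cons, List.length_nil] at hke
                omega)
              (by
                rw [List.sum_nil, add_zero, sum_df])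
            rw [sh_nil_right, vt_df, List.dropLast_concat] at h1
            exact h1)
          e rfl he
        have h2 : Ev B (pw (Polynomial.X : Polynomial (ZMod 2)) :: e.map (we Polynomial.X)) (al _ H) =
            Polynomial.X ^ e.sum * ∑ i ∈ range B, Polynomial.X ^ i *
              algebraMap (ZMod 2) (Polynomial (ZMod 2)) (H (i :: e)) := by
          rw [Ev_cons, mul_sum]
          apply sum_congr rfl
          intro i _
          rw [Ev_we B hB _ e he]
          rw [pw, al]
          ring
        have h3 : Polynomial.X ^ e.sum * ∑ i ∈ range B, Polynomial.X ^ i *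
              algebraMap (ZMod 2) (Polynomial (ZMod 2)) (H (i :: e)) = 0 := by
          rw [← h2]; exact key
        have h4 : ∑ i ∈ range B, (Polynomial.X : Polynomial (ZMod 2)) ^ i *
              algebraMap (ZMod 2) (Polynomial (ZMod 2)) (H (i :: e)) = 0 := by
          rcases mul_eq_zero.1 h3 with h | h
          · exact absurd h (pow_ne_zero _ hXne)
          · exact h
        have h5 := congrArg (fun p : Polynomial (ZMod 2) => p.coeff k0) h4
        simp only [Polynomial.finsetSum_coeff, Polynomial.coeff_zero] at h5
        rw [sum_eq_single k0] at h5
        · rw [← Polynomial.C_eq_algebraMap, Polynomial.coeff_mul_C, Polynomial.coeff_X_pow,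
            if_pos rfl, one_mul] at h5
          exact h5
        · intro i _ hi
          rw [← Polynomial.C_eq_algebraMap, Polynomial.coeff_mul_C, Polynomial.coeff_X_pow,
            if_neg (Ne.symm hi), zero_mul]
        · intro h
          exact absurd (mem_range.2 (hkB k0 (by simp))) h
      · -- `j ≥ 1`
        have hjn : j < n := by omega
        have hA : RelA B j (fun l => H (l ++ e)) := by
          intro S _ _ _ x c P W hx hc hxc hP hPs hlen
          have key := conv_e (S := S) c e.length
            (fun hs => sh (fun w => Ev B (pw x :: ((vt x w).map (tw c) ++ hs)) (al _ H)) P W)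
            (by
              intro gs hs g g'
              show sh _ P W = sh _ P W + sh _ P W
              rw [← sh_add]
              congr 1
              funext w
              have := Ev_slot_add B (pw x :: ((vt x w).map (tw c) ++ gs)) hs g g' (al _ H)
              simpa [List.append_assoc] using this)
            (by
              intro vs hl hvs
              set y : S := algebraMap (ZMod 2) _ η * c with hy
              have hsy : Sm c y := sm_eta η _
              have hall : ∀ v ∈ vs ++ [y], Sm c v := by
                intro v hv
                rcases List.mem_append.1 hv with hv | hv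
                · exact hvs v hv
                · rw [List.mem_singleton.1 hv]; exact hsy
              obtain ⟨z, zs, hz⟩ : ∃ z zs, vs ++ [y] = z :: zs := by
                cases vs with
                | nil => exact ⟨y, [], rfl⟩
                | cons v vs => exact ⟨v, vs ++ [y], rfl⟩
              set s : S := x + P.sum + W.sum with hs
              have hsum : s + (df s (z :: zs)).sum = y := by rw [← hz]; exact sum_df s y vs
              have hvt : vt s (df s (z :: zs)) = z :: zs := vt_df s _
              have hdf : df s (z :: zs) = (s + z) :: df z zs := rfl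
              have hz' : Sm c z := hall z (by rw [hz]; simp)
              have hzs : ∀ v ∈ zs, Sm c v := fun v hv => hall v (by rw [hz]; simp [hv])
              have hdfs : ∀ p ∈ df z zs, Sm c p := Sm.df hz' zs hzs
              have h1 := hH S x c P (W ++ (s + z) :: df z zs) hc hP hPs
                (by
                  have h3 := congrArg List.length hz
                  simp only [List.length_append, List.length_cons, List.length_nil, length_df]
                    at h3 ⊢
                  omega)
                (by
                  rw [List.sum_append, ← add_assoc, ← hs, ← hdf, hsum])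
              rw [sh_split] at h1
              · refine Eq.trans (sh_congr _ _ ?_) h1
                intro u hu
                have hus : x + u.sum = s := by
                  rw [(perm_of_mem_shf _ _ _ hu).sum_eq, List.sum_append, hs, add_assoc]
                rw [← hdf, vt_append, hus, hvt, ← hz, ← List.append_assoc, List.dropLast_concat,
                  List.map_append]
              · intro P₁ P₂ hPP hP₂ u hu v hv
                have hP₂s : ∀ p ∈ P₂, Sm c p := fun p hp => hPs p (by rw [hPP]; simp [hp])
                have hvs' : ∀ p ∈ v, Sm c p := by
                  intro p hp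
                  have := (perm_of_mem_shf _ _ _ hv).mem_iff.1 hp
                  rcases List.mem_append.1 this with h | h
                  · exact hP₂s p h
                  · exact hdfs p h
                have hxu : Sm c (x + u.sum + (s + z)) := by
                  have h4 : x + u.sum + (s + z) = P₂.sum + z := by
                    rw [(perm_of_mem_shf _ _ _ hu).sum_eq, List.sum_append, hs, hPP,
                      List.sum_append]
                    have e1 := char2 S x
                    have e2 := char2 S P₁.sum
                    have e3 := char2 S W.sum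
                    linear_combination e1 + e2 + e3
                  rw [h4]
                  exact (Sm.sum P₂ hP₂s).add hz'
                have hL2 : ∀ p ∈ vt (x + u.sum) ((s + z) :: v), Sm c p := by
                  intro p hp
                  rw [vt_cons, List.mem_cons] at hp
                  rcases hp with rfl | hp
                  · exact hxu
                  · exact Sm.vt hxu v hvs' p hp
                have hne : vt (x + u.sum) ((s + z) :: v) ≠ [] := by
                  rw [vt_cons]; simp
                rw [vt_append, List.dropLast_append_of_ne_nil hne, List.map_append,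
                  ← List.cons_append, Ev_append]
                apply Ev_eq_zero
                intro l hl hlB
                apply Ev_small B _ (fun p hp => hL2 p (List.mem_of_mem_dropLast hp))
                intro e' he' hi'
                rw [al]
                have hlu : u.length = P₁.length + W.length := length_of_mem_shf hu
                have hlv : v.length = P₂.length + zs.length := by
                  rw [length_of_mem_shf hv, length_df]
                have hPl : P.length = P₁.length + P₂.length := by rw [hPP, List.length_append]
                have hP₂l : 0 < P₂.length := List.length_pos_iff.2 hP₂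
                have hll : l.length = u.length + 1 := by
                  rw [hl, List.length_cons, List.length_map, length_vt]
                have he'' : e'.length = v.length := by
                  rw [he', List.length_dropLast, length_vt, List.length_cons]; omega
                have hvsl : vs.length + 1 = zs.length + 1 := by
                  have h3 := congrArg List.length hz
                  simpa using h3
                rw [IH u.length (by omega) l e' hll hlB (by omega) hi', map_zero])
            e rfl he
          have h2 : ∀ w, Ev B (pw x :: ((vt x w).map (tw c) ++ e.map (we c))) (al S H) =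
              c ^ e.sum * Ev B (pw x :: (vt x w).map (tw c))
                (fun l => algebraMap (ZMod 2) S (H (l ++ e))) := by
            intro w
            rw [← List.cons_append, Ev_append, ← Ev_smul]
            congr 1
            funext l
            rw [Ev_we B hB _ e he]
            rfl
          have h3 : c ^ e.sum * sh (fun w => Ev B (pw x :: (vt x w).map (tw c))
                (fun l => algebraMap (ZMod 2) S (H (l ++ e)))) P W = 0 := by
            rw [← sh_smul]
            refine Eq.trans (sh_congr _ _ ?_) key
            intro w _
            exact (h2 w).symm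
          rcases mul_eq_zero.1 h3 with h | h
          · exact absurd h (pow_ne_zero _ hc)
          · exact h
        exact ih j h0 hjn _ hA k hk hkB
  intro l hl hlB
  have := claim (n - 1) l [] (by omega) hlB (by simp [hl]) (by simp)
  simpa using this

theorem eval_list {S : Type} [CommRing S] (w : List S) :
    (w.map Polynomial.C).map (Polynomial.evalRingHom (0 : S)) = w := by
  rw [List.map_map]
  conv_rhs => rw [← List.map_id w]
  apply List.map_congr_left
  intro a _
  simp

theorem eval_vt {S : Type} [CommRing S] (x : S) (w : List S) :
    (vt (Polynomial.C x + Polynomial.X) (w.map Polynomial.C)).map (Polynomial.evalRingHom (0 : S)) =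
      vt x w := by
  rw [map_vt, eval_list]
  congr 1
  simp

/-- Specialisation `z → 0` of an evaluation. -/
theorem eval_Ev {S : Type} [CommRing S] [Algebra (ZMod 2) S] (B : ℕ) (x c : S)
    (L : List (Polynomial S)) (H : List ℕ → ZMod 2) :
    Polynomial.evalRingHom (0 : S) (Ev B (pw (Polynomial.C x + Polynomial.X) ::
      L.map (tw (Polynomial.C c))) (al (Polynomial S) H)) =
      Ev B (pw x :: (L.map (Polynomial.evalRingHom (0 : S))).map (tw c)) (al S H) := by
  rw [Ev_map, List.map_cons, map_pw, List.map_map]
  have e1 : Polynomial.evalRingHom (0 : S) (Polynomial.C x + Polynomial.X) = x := by simp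
  have e2 : ((fun g k => (Polynomial.evalRingHom (0 : S)) (g k)) ∘ tw (Polynomial.C c)) =
      fun v => tw c (Polynomial.evalRingHom (0 : S) v) := by
    funext v
    show (fun k => (Polynomial.evalRingHom (0 : S)) (tw (Polynomial.C c) v k)) = _
    rw [map_tw]
    simp
  rw [e1, e2, List.map_map]
  congr 1
  funext l
  rw [al, al]
  simp

theorem shift_ne {S : Type} [CommRing S] [Nontrivial S] (x : S) :
    Polynomial.C x + Polynomial.X ≠ 0 := by
  intro h0
  have := congrArg (fun p : Polynomial S => p.coeff 1) h0
  simp at this

theorem small_map_C {S : Type} [CommRing S] {c : S} {P : List S}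
    (hPs : ∀ p ∈ P, p = 0 ∨ p = c) :
    ∀ p ∈ P.map Polynomial.C, p = 0 ∨ p = Polynomial.C c := by
  intro p hp
  obtain ⟨q, hq, rfl⟩ := List.mem_map.1 hp
  rcases hPs q hq with rfl | rfl
  · left; simp
  · right; rfl

/-- The relation of lemma A at all points with `c ≠ 0`. -/
theorem RelA.full {B n : ℕ} {K : List ℕ → ZMod 2} (h : RelA B n K) (S : Type) [CommRing S]
    [IsDomain S] [Algebra (ZMod 2) S] (x c : S) (P W : List S) (hc : c ≠ 0) (hP : P ≠ [])
    (hPs : ∀ p ∈ P, p = 0 ∨ p = c) (hl : P.length + W.length = n) :
    sh (fun w => Ev B (pw x :: (vt x w).map (tw c)) (al S K)) P W = 0 := by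
  have h1 := h (Polynomial S) (Polynomial.C x + Polynomial.X) (Polynomial.C c)
    (P.map Polynomial.C) (W.map Polynomial.C) (shift_ne x) (by rwa [Ne, Polynomial.C_eq_zero])
    (by
      have := shift_ne (x + c)
      rw [Polynomial.C_add, add_right_comm] at this
      exact this)
    (by simpa using hP) (small_map_C hPs) (by simpa using hl)
  have h2 := congrArg (Polynomial.evalRingHom (0 : S)) h1
  rw [map_zero, sh_map_ring, sh_map_list] at h2
  refine Eq.trans (sh_congr _ _ ?_) h2
  intro w _
  have := eval_Ev B x c (vt (Polynomial.C x + Polynomial.X) (w.map Polynomial.C)) K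
  rw [eval_vt] at this
  exact this.symm

theorem vt_last {S : Type} [CommRing S] (x : S) (w : List S) (hw : w ≠ []) :
    vt x w = (vt x w).dropLast ++ [x + w.sum] := by
  obtain ⟨u, a, rfl⟩ : ∃ u a, w = u ++ [a] := by
    rcases List.eq_nil_or_concat w with h | ⟨u, a, h⟩
    · exact absurd h hw
    · exact ⟨u, a, by simpa using h⟩
  rw [vt_append, vt_cons, vt_nil, List.dropLast_concat, List.sum_append, List.sum_cons,
    List.sum_nil, add_zero, add_assoc]

/-- Sorting the relation by the exponent at the last vertex. -/
theorem RelA.sorted {B n : ℕ} {K : List ℕ → ZMod 2} (h : RelA B n K) (S : Type) [CommRing S]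
    [IsDomain S] [Algebra (ZMod 2) S] (x c : S) (P W : List S) (hc : c ≠ 0) (hP : P ≠ [])
    (hPs : ∀ p ∈ P, p = 0 ∨ p = c) (hl : P.length + W.length = n) :
    ∑ k ∈ range B, tw c (x + P.sum + W.sum) k *
      sh (fun w => Ev B (pw x :: (vt x w).dropLast.map (tw c))
        (al S (fun l => K (l ++ [k])))) P W = 0 := by
  have h1 := h.full S x c P W hc hP hPs hl
  have h2 : ∀ k ∈ range B, tw c (x + P.sum + W.sum) k *
      sh (fun w => Ev B (pw x :: (vt x w).dropLast.map (tw c))
        (al S (fun l => K (l ++ [k])))) P W =
      sh (fun w => tw c (x + P.sum + W.sum) k * Ev B (pw x :: (vt x w).dropLast.map (tw c))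
        (al S (fun l => K (l ++ [k])))) P W := by
    intro k _
    rw [sh_smul]
  rw [sum_congr rfl h2, ← sh_sum]
  refine Eq.trans (sh_congr _ _ ?_) h1
  intro w hw
  have hne : w ≠ [] := by
    intro h0
    have h3 := length_of_mem_shf hw
    rw [h0, List.length_nil] at h3
    have := List.length_pos_iff.2 hP
    omega
  have hsum : x + w.sum = x + P.sum + W.sum := by
    rw [(perm_of_mem_shf _ _ _ hw).sum_eq, List.sum_append, add_assoc]
  rw [vt_last x w hne, hsum, List.map_append, List.map_cons, List.map_nil, ← List.cons_append,
    Ev_last]
  rw [List.dropLast_concat]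
  rfl

/-- **Lemma A.** -/
theorem lemA {B : ℕ} (hB : 2 ≤ B) {n : ℕ} (hn : 1 ≤ n) {K : List ℕ → ZMod 2} (h : RelA B n K) :
    ∀ l : List ℕ, l.length = n + 1 → (∀ k ∈ l, k < B) → K l = 0 := by
  induction n using Nat.strong_induction_on generalizing K with
  | _ n IH =>
    have IH' : ∀ j, 1 ≤ j → j < n → ∀ K, RelA B j K →
        ∀ l : List ℕ, l.length = j + 1 → (∀ k ∈ l, k < B) → K l = 0 :=
      fun j h1 h2 K hK => IH j h2 h1 hK
    -- the exponent `0` at the last vertex
    have h0 : ∀ l : List ℕ, l.length = n → (∀ k ∈ l, k < B) → K (l ++ [0]) = 0 := by
      apply lemZ B n hB hn 1 IH'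
      intro S _ _ _ x c P W hc hP hPs hl hy
      have h1 := h.sorted S x c P W hc hP hPs hl
      rw [hy, map_one, one_mul, tw_self', sum_eq_single 0] at h1
      · simpa [dl] using h1
      · intro k _ hk
        simp [dl, hk]
      · intro h2
        exact absurd (mem_range.2 (by omega)) h2
    -- the exponents `k + 1` at the last vertex
    have hk : ∀ k, k + 1 < B → ∀ l : List ℕ, l.length = n → (∀ i ∈ l, i < B) →
        K (l ++ [k + 1]) = 0 := by
      intro k
      induction k using Nat.strong_induction_on with
      | _ k ihk =>
        intro hkB
        apply lemZ B n hB hn 0 IH'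
        intro S _ _ _ x c P W hc hP hPs hl hy
        rw [map_zero, zero_mul] at hy
        have h1 := h.sorted (Polynomial S) (Polynomial.C x + Polynomial.X) (Polynomial.C c)
          (P.map Polynomial.C) (W.map Polynomial.C) (by rwa [Ne, Polynomial.C_eq_zero])
          (by simpa using hP) (small_map_C hPs) (by simpa using hl)
        have hsum : Polynomial.C x + Polynomial.X + (P.map Polynomial.C).sum +
            (W.map Polynomial.C).sum = (Polynomial.X : Polynomial S) := by
          have e1 : (P.map Polynomial.C).sum = Polynomial.C P.sum := by rw [map_list_sum]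
          have e2 : (W.map Polynomial.C).sum = Polynomial.C W.sum := by rw [map_list_sum]
          rw [e1, e2]
          have : Polynomial.C (x + P.sum + W.sum) = (0 : Polynomial S) := by rw [hy, map_zero]
          rw [Polynomial.C_add, Polynomial.C_add] at this
          linear_combination this
        rw [hsum] at h1
        set R : ℕ → Polynomial S := fun i =>
          sh (fun w => Ev B (pw (Polynomial.C x + Polynomial.X) ::
            (vt (Polynomial.C x + Polynomial.X) w).dropLast.map (tw (Polynomial.C c)))
            (al (Polynomial S) (fun l => K (l ++ [i])))) (P.map Polynomial.C)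
            (W.map Polynomial.C) with hR
        have hR0 : ∀ i, i ≤ k → R i = 0 := by
          intro i hi
          rw [hR]
          refine Eq.trans (sh_congr (c' := fun _ => 0) _ _ ?_) (sh_zero _ _)
          intro w hw
          apply Ev_eq_zero
          intro l hl' hlB
          have hwl : w.length = n := by
            rw [length_of_mem_shf hw, List.length_map, List.length_map, hl]
          have hln : l.length = n := by
            rw [hl', List.length_cons, List.length_map, List.length_dropLast, length_vt, hwl]
            omega
          rw [al]
          rcases Nat.eq_zero_or_pos i with hi0 | hi0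
          · rw [hi0, h0 l hln hlB, map_zero]
          · obtain ⟨m, rfl⟩ : ∃ m, i = m + 1 := ⟨i - 1, by omega⟩
            rw [ihk m (by omega) (by omega) l hln hlB, map_zero]
        have h2 : ∀ i ∈ range B, tw (Polynomial.C c) (Polynomial.X : Polynomial S) i * R i =
            (Polynomial.X ^ k * (Polynomial.X + Polynomial.C c)) *
              (if i ≤ k then 0 else Polynomial.X ^ (i - (k + 1)) * R i) := by
          intro i _
          by_cases hi : i ≤ k
          · rw [hR0 i hi, if_pos hi, mul_zero, mul_zero]
          · obtain ⟨m, rfl⟩ : ∃ m, i = k + 1 + m := ⟨i - (k + 1), by omega⟩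
            rw [if_neg hi, Nat.add_sub_cancel_left]
            have : k + 1 + m = (k + m) + 1 := by ring
            rw [this]
            show (Polynomial.X ^ (k + m) * (Polynomial.X + Polynomial.C c)) * _ = _
            rw [pow_add]
            ring
        rw [sum_congr rfl h2, ← mul_sum] at h1
        have h3 : ∑ i ∈ range B, (if i ≤ k then 0 else
            (Polynomial.X : Polynomial S) ^ (i - (k + 1)) * R i) = 0 := by
          rcases mul_eq_zero.1 h1 with h4 | h4
          · exfalso
            rcases mul_eq_zero.1 h4 with h5 | h5
            · exact pow_ne_zero _ Polynomial.X_ne_zero h5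
            · rw [add_comm] at h5
              exact shift_ne c h5
          · exact h4
        have h4 := congrArg (Polynomial.evalRingHom (0 : S)) h3
        rw [map_zero, map_sum, sum_eq_single (k + 1)] at h4
        · rw [if_neg (by omega), Nat.sub_self, pow_zero, one_mul, hR] at h4
          simp only [] at h4
          rw [sh_map_ring, sh_map_list] at h4
          refine Eq.trans (sh_congr _ _ ?_) h4
          intro w _
          have hd : (vt (Polynomial.C x + Polynomial.X) (w.map Polynomial.C)).dropLast.map
              (Polynomial.evalRingHom (0 : S)) = (vt x w).dropLast := by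
            rw [List.map_dropLast, eval_vt]
          have := eval_Ev B x c
            (vt (Polynomial.C x + Polynomial.X) (w.map Polynomial.C)).dropLast
            (fun l => K (l ++ [k + 1]))
          rw [hd] at this
          exact this.symm
        · intro i _ hi
          by_cases hik : i ≤ k
          · rw [if_pos hik, map_zero]
          · rw [if_neg hik, map_mul, map_pow]
            have : Polynomial.evalRingHom (0 : S) Polynomial.X = 0 := by simp
            rw [this, zero_pow (by omega), zero_mul]
        · intro h5
          exact absurd (mem_range.2 hkB) h5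
    intro l hl hlB
    obtain ⟨u, a, rfl⟩ : ∃ u a, l = u ++ [a] := by
      rcases List.eq_nil_or_concat l with h1 | ⟨u, a, h1⟩
      · rw [h1] at hl; simp at hl
      · exact ⟨u, a, by simpa using h1⟩
    have hu : u.length = n := by simpa using hl
    have huB : ∀ i ∈ u, i < B := fun i hi => hlB i (by simp [hi])
    have haB : a < B := hlB a (by simp)
    rcases Nat.eq_zero_or_pos a with ha | ha
    · rw [ha]; exact h0 u hu huB
    · obtain ⟨m, rfl⟩ : ∃ m, a = m + 1 := ⟨a - 1, by omega⟩
      exact hk m haB u hu huB

end Pool.Agent.ECV
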