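import Pool.Agent.ECV.QSys
import Pool.Agent.ECV.Lem

/-!
# Windows

A solution of the system `QSys` is zero: `qsys_zero`.  `Wnd r q m` says that `q` vanishes when all
exponents outside a window of at most `m` slots are at most one.
-/

set_option autoImplicit false

namespace Pool.Agent.ECV.Win

open Pool.Agent.ECV (Ev pw tw dl vt QSys RelA)
open Pool.Agent.ECB Finset


section
variable {S : Type*} [CommRing S]

/-- If all weights vanish at exponents `≥ 2`, only the square-free exponents matter. -/
theorem Ev_small (B : ℕ) (gs : List (ℕ → S)) (K : List ℕ → S)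
    (hg : ∀ g ∈ gs, ∀ k, 2 ≤ k → g k = 0)
    (hK : ∀ l : List ℕ, l.length = gs.length → (∀ k ∈ l, k ≤ 1) → K l = 0) :
    Ev B gs K = 0 := by
  induction gs generalizing K with
  | nil => exact hK [] rfl (by simp)
  | cons g gs ih =>
    rw [Ev_cons]
    apply sum_eq_zero
    intro k _
    by_cases h : 2 ≤ k
    · rw [hg g (by simp) k h, zero_mul]
    · rw [ih _ (fun g hg' => hg g (List.mem_cons_of_mem _ hg')), mul_zero]
      intro l hl hl1
      apply hK
      · simp [hl]
      · intro i hi
        rcases List.mem_cons.1 hi with rfl | hi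
        · omega
        · exact hl1 i hi

/-- Evaluation in two steps, the last slots first. -/
theorem Ev_append' (B : ℕ) (gs hs : List (ℕ → S)) (K : List ℕ → S) :
    Ev B (gs ++ hs) K = Ev B hs (fun l' => Ev B gs (fun l => K (l ++ l'))) := by
  induction gs generalizing K with
  | nil => rfl
  | cons g gs ih =>
    rw [List.cons_append, Ev_cons]
    simp only [Ev_cons]
    rw [Ev_sum]
    apply sum_congr rfl
    intro k _
    rw [ih, Ev_smul]
    rfl

theorem Ev_list_sum (B : ℕ) (gs : List (ℕ → S)) {α : Type*} (L : List α) (K : α → List ℕ → S) :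
    Ev B gs (fun l => (L.map (fun i => K i l)).sum) = (L.map (fun i => Ev B gs (K i))).sum := by
  induction L with
  | nil => simp [Ev_zero]
  | cons i L ih =>
    simp only [List.map_cons, List.sum_cons]
    rw [Ev_add, ih]

theorem Ev_sh (B : ℕ) (gs : List (ℕ → S)) {α : Type*} (u v : List α) (K : List α → List ℕ → S) :
    Ev B gs (fun l => sh (fun w => K w l) u v) = sh (fun w => Ev B gs (K w)) u v := by
  simp only [sh]
  exact Ev_list_sum B gs _ K

theorem Ev_cons_add (B : ℕ) (g g' : ℕ → S) (gs : List (ℕ → S)) (K : List ℕ → S) :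
    Ev B ((g + g') :: gs) K = Ev B (g :: gs) K + Ev B (g' :: gs) K :=
  Ev_slot_add B [] gs g g' K

theorem Ev_cons_smul (B : ℕ) (a : S) (g : ℕ → S) (gs : List (ℕ → S)) (K : List ℕ → S) :
    Ev B ((a • g) :: gs) K = a * Ev B (g :: gs) K :=
  Ev_slot_smul B [] gs a g K

theorem Ev_cons' (B : ℕ) (g : ℕ → S) (gs : List (ℕ → S)) (K : List ℕ → S) :
    Ev B (g :: gs) K = Ev B gs (fun l => ∑ k ∈ range B, g k * K (k :: l)) := by
  rw [Ev_cons, Ev_sum]
  apply sum_congr rfl
  intro k _
  rw [Ev_smul]

/-- If `Ev` vanishes for all weights in `A`, it vanishes for all weights a nonzero multiple of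
which lies in the span of `A`. -/
theorem Ev_expand [IsDomain S] (B : ℕ) (A A' : Set (ℕ → S))
    (hA : ∀ g ∈ A', ∃ a : S, a ≠ 0 ∧ a • g ∈ Submodule.span S A) (n : ℕ) (K : List ℕ → S)
    (h : ∀ gs : List (ℕ → S), gs.length = n → (∀ g ∈ gs, g ∈ A) → Ev B gs K = 0)
    (gs : List (ℕ → S)) (hn : gs.length = n) (hgs : ∀ g ∈ gs, g ∈ A') : Ev B gs K = 0 := by
  induction n generalizing gs K with
  | zero =>
    apply h gs hn
    intro g hg
    rw [List.length_eq_zero_iff] at hn
    subst hn
    simp at hg
  | succ n ih =>
    rcases gs with _ | ⟨g, gs⟩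
    · simp at hn
    · have hn' : gs.length = n := by simpa using hn
      have h1 : ∀ g₀ ∈ Submodule.span S A, Ev B (g₀ :: gs) K = 0 := by
        intro g₀ hg₀
        induction hg₀ using Submodule.span_induction with
        | mem g₀ hg₀ =>
          rw [Ev_cons']
          apply ih _ _ gs hn' (fun g hg => hgs g (List.mem_cons_of_mem _ hg))
          intro gs' hgs' hA'
          rw [← Ev_cons']
          apply h
          · simp [hgs']
          · intro g hg
            rcases List.mem_cons.1 hg with rfl | hg
            · exact hg₀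
            · exact hA' g hg
        | zero =>
          rw [Ev_cons]
          simp
        | add g₁ g₂ _ _ h₁ h₂ => rw [Ev_cons_add, h₁, h₂, add_zero]
        | smul a g₁ _ h₁ => rw [Ev_cons_smul, h₁, mul_zero]
      obtain ⟨a, ha, hag⟩ := hA g (hgs g (by simp))
      have h2 := h1 _ hag
      rw [Ev_cons_smul] at h2
      exact (mul_eq_zero.1 h2).resolve_left ha

theorem Ev_map_dl (B : ℕ) (J : List ℕ) (hJ : ∀ k ∈ J, k < B) (K : List ℕ → S) :
    Ev B (J.map dl) K = K J := by
  induction J generalizing K with
  | nil => rfl
  | cons j J ih =>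
    rw [List.map_cons, Ev_dl_cons B j (hJ j (by simp)),
      ih (fun k hk => hJ k (List.mem_cons_of_mem _ hk))]

theorem coeff_Ev (B : ℕ) (g : ℕ → Polynomial S) (gs : List (ℕ → S)) (K : List ℕ → S) (i : ℕ) :
    (Ev B (g :: gs.map (fun h k => Polynomial.C (h k))) (fun l => Polynomial.C (K l))).coeff i =
      Ev B ((fun k => (g k).coeff i) :: gs) K := by
  rw [Ev_cons, Ev_cons, Polynomial.finsetSum_coeff]
  apply sum_congr rfl
  intro k _
  rw [← Ev_map Polynomial.C B gs (fun l => K (k :: l)), Polynomial.coeff_mul_C]

end

section shuffles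
variable {α R : Type*} [AddCommMonoid R]

/-- The shuffles of `u` with `w ++ a :: v`, if those in which letters of `u` come after `a` do not
contribute. -/
theorem sh_split (f : List α → R) (u w : List α) (a : α) (v : List α)
    (h : ∀ u' u'', u' ++ u'' = u → u'' ≠ [] → ∀ w₁ ∈ shf u' w, ∀ w₂ ∈ shf u'' v,
      f (w₁ ++ a :: w₂) = 0) :
    sh f u (w ++ a :: v) = sh (fun t => f (t ++ a :: v)) u w := by
  induction u generalizing w f with
  | nil => simp
  | cons p u ihu =>
    induction w generalizing f with
    | nil =>
      rw [List.nil_append, sh_cons_cons, sh_nil_right]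
      have h1 : sh (fun t => f (a :: t)) (p :: u) v = 0 := by
        rw [sh]
        apply List.sum_eq_zero
        intro x hx
        rw [List.mem_map] at hx
        obtain ⟨t, ht, rfl⟩ := hx
        exact h [] (p :: u) rfl (by simp) [] (by simp) t ht
      have h2 : sh (fun t => f (p :: t)) u (a :: v) = f (p :: u ++ a :: v) := by
        have := ihu (fun t => f (p :: t)) [] (by
          intro u' u'' hu hu'' w₁ hw₁ w₂ hw₂
          have := h (p :: u') u'' (by simp [hu]) hu'' (p :: w₁) (by
            simp at hw₁ ⊢
            exact hw₁) w₂ hw₂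
          simpa using this)
        rw [List.nil_append, sh_nil_right] at this
        rw [this]
        rfl
      rw [h1, h2, add_zero]
    | cons b w ihw =>
      rw [List.cons_append, sh_cons_cons, sh_cons_cons]
      congr 1
      · have := ihu (fun t => f (p :: t)) (b :: w) (by
          intro u' u'' hu hu'' w₁ hw₁ w₂ hw₂
          have := h (p :: u') u'' (by simp [hu]) hu'' (p :: w₁) (by
            rw [shf_cons_cons, List.mem_append]
            left
            exact List.mem_map.2 ⟨w₁, hw₁, rfl⟩) w₂ hw₂
          simpa using this)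
        rw [List.cons_append] at this
        rw [this]
        rfl
      · have := ihw (fun t => f (b :: t)) (by
          intro u' u'' hu hu'' w₁ hw₁ w₂ hw₂
          have := h u' u'' hu hu'' (b :: w₁) (by
            rcases u' with _ | ⟨c, u'⟩
            · simp at hw₁ ⊢
              exact hw₁
            · rw [shf_cons_cons, List.mem_append]
              right
              exact List.mem_map.2 ⟨w₁, hw₁, rfl⟩) w₂ hw₂
          simpa using this)
        rw [this]
        rfl

end shuffles



section
variable {S : Type} [CommRing S] [Algebra (ZMod 2) S]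

theorem add_self_zmod (x : S) : x + x = 0 := by
  have h : (algebraMap (ZMod 2) S) (1 + 1) = 0 := by
    rw [show (1 + 1 : ZMod 2) = 0 from rfl, map_zero]
  rw [map_add, map_one] at h
  calc x + x = (1 + 1) * x := by ring
    _ = 0 := by rw [h, zero_mul]

theorem charP_zmod [IsDomain S] : CharP S 2 :=
  charP_of_injective_algebraMap (algebraMap (ZMod 2) S).injective 2

/-- The coefficient extraction lemma. -/
theorem eq_zero_of_pw (B n : ℕ) (K : List ℕ → ZMod 2)
    (h : ∀ (S : Type) [CommRing S] [Algebra (ZMod 2) S] [IsDomain S] (v : List S), v.length = n →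
      Ev B (v.map pw) (fun l => algebraMap (ZMod 2) S (K l)) = 0) :
    ∀ l : List ℕ, l.length = n → (∀ k ∈ l, k < B) → K l = 0 := by
  induction n generalizing K with
  | zero =>
    intro l hl _
    rw [List.length_eq_zero_iff] at hl
    subst hl
    have := h (ZMod 2) [] rfl
    simpa using this
  | succ n ih =>
    intro l hl hlB
    rcases l with _ | ⟨k, l⟩
    · simp at hl
    · apply ih (fun l => K (k :: l)) _ l (by simpa using hl)
        (fun i hi => hlB i (List.mem_cons_of_mem _ hi))
      intro S _ _ _ v hv
      have h1 := h (Polynomial S) (Polynomial.X :: v.map Polynomial.C) (by simp [hv])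
      have h2 := coeff_Ev B (pw (Polynomial.X : Polynomial S)) (v.map pw)
        (fun l => algebraMap (ZMod 2) S (K l)) k
      have h3 : (v.map pw).map (fun (h : ℕ → S) k => Polynomial.C (h k)) =
          (v.map Polynomial.C).map pw := by
        rw [List.map_map, List.map_map]
        apply List.map_congr_left
        intro x _
        exact map_pw Polynomial.C x
      have h4 : (fun l => Polynomial.C (algebraMap (ZMod 2) S (K l))) =
          (fun l => algebraMap (ZMod 2) (Polynomial S) (K l)) := rfl
      rw [h3, h4] at h2
      rw [List.map_cons] at h1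
      rw [h1, Polynomial.coeff_zero] at h2
      have h5 : (fun i => (pw (Polynomial.X : Polynomial S) i).coeff k) = dl k := by
        funext i
        simp only [pw, dl, Polynomial.coeff_X_pow]
        by_cases hik : i = k
        · simp [hik]
        · rw [if_neg hik, if_neg (fun h => hik h.symm)]
      rw [h5, Ev_dl_cons B k (hlB k (by simp))] at h2
      exact h2.symm

end

variable {B r : ℕ} {q : List ℕ → ZMod 2}

/-- Windows with at most `m` slots. -/
def Wnd (r : ℕ) (q : List ℕ → ZMod 2) (m : ℕ) : Prop :=
  ∀ u v : List ℕ, u.length ≤ m → u.length + v.length = r → (∀ k ∈ v, k ≤ 1) → q (u ++ v) = 0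

/-- Windows with `r - 1` slots suffice. -/
theorem zero_of_wnd (hq : QSys B r q) (hr : 1 ≤ r) (hB : 1 ≤ B) (h : Wnd r q (r - 1)) :
    ∀ l : List ℕ, l.length = r → q l = 0 := by
  intro l hl
  by_cases hlB : ∃ k ∈ l, B ≤ k
  · exact hq.bdd l hl hlB
  · push Not at hlB
    apply eq_zero_of_pw B r q _ l hl hlB
    intro S _ _ _ v hv
    rcases v with _ | ⟨x, v⟩
    · simp at hv; omega
    · rw [← hq.ti S x (x :: v) hv, List.map_cons]
      have : (pw (x + x) : ℕ → S) = dl 0 := by
        rw [add_self_zmod]
        funext k
        cases k with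
        | zero => simp [pw, dl]
        | succ k => simp [pw, dl]
      rw [this, Ev_dl_cons B 0 hB]
      apply Ev_eq_zero
      intro l' hl' _
      have hl'' : l'.length = r - 1 := by
        rw [hl', List.length_map]
        simp at hv; omega
      have h1 : q ([0] ++ l') = 0 := by
        rw [hq.rot]
        exact h l' [0] (by omega) (by simp; omega) (by simp)
      rw [List.singleton_append] at h1
      rw [h1, map_zero]

/-- Step 2a: `G` vanishes when all vertices but the first lie in `{0, c}`. -/
theorem G_small (hq : QSys B r q) (hB : 3 ≤ B) (hr : 1 ≤ r) {S : Type} [CommRing S]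
    [Algebra (ZMod 2) S] [IsDomain S] (x c : S) (hc : x + c ≠ 0) (v : List S)
    (hv : v.length + 1 = r) (hvc : ∀ y ∈ v, y = 0 ∨ y = c) :
    Ev B ((x :: v).map pw) (fun l => algebraMap (ZMod 2) S (q l)) = 0 := by
  have : CharP S 2 := charP_zmod
  set t := x + c with ht
  have hpw0 : (pw (0 : S)) = dl 0 := by
    funext k
    cases k with
    | zero => simp [pw, dl]
    | succ k => simp [pw, dl]
  -- the functionals with first slot extracted
  have key : ∀ i, i ≤ 1 → ∀ gs : List (ℕ → S), gs.length = r - 1 →
      (∀ g ∈ gs, g = pw 0 ∨ g = pw t) →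
      Ev B gs (fun l => algebraMap (ZMod 2) S (q (i :: l))) = 0 := by
    intro i hi gs hgs hmem
    -- write `gs` as `s.map pw`
    obtain ⟨s, hs, rfl⟩ : ∃ s : List S, (∀ y ∈ s, y = 0 ∨ y = t) ∧ gs = s.map pw := by
      clear hgs
      induction gs with
      | nil => exact ⟨[], by simp, rfl⟩
      | cons g gs ih =>
        obtain ⟨s, hs, rfl⟩ := ih (fun g hg => hmem g (List.mem_cons_of_mem _ hg))
        rcases hmem g (by simp) with h | h
        · refine ⟨0 :: s, ?_, by rw [List.map_cons, h]⟩
          intro y hy
          rcases List.mem_cons.1 hy with rfl | hy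
          · left; rfl
          · exact hs y hy
        · refine ⟨t :: s, ?_, by rw [List.map_cons, h]⟩
          intro y hy
          rcases List.mem_cons.1 hy with rfl | hy
          · right; rfl
          · exact hs y hy
    have hsl : s.length = r - 1 := by simpa using hgs
    have hsmall : ∀ g ∈ s.map (tw t), ∀ k, 2 ≤ k → g k = 0 := by
      intro g hg k hk
      obtain ⟨y, hy, rfl⟩ := List.mem_map.1 hg
      obtain ⟨k, rfl⟩ : ∃ k', k = k' + 2 := ⟨k - 2, by omega⟩
      rcases hs y hy with rfl | rfl
      · rw [tw_zero_right]; simp [dl]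
      · rw [tw_self]; simp [dl]
    have hsm : ∀ a, a ≤ 2 → Ev B (s.map (tw t)) (fun l => algebraMap (ZMod 2) S (q (a :: l))) = 0 := by
      intro a ha
      apply Ev_small _ _ _ hsmall
      intro l hl hl1
      rw [hq.p0 a l ha hl1 (by rw [hl, List.length_map]; omega), map_zero]
    have h0 := hq.hm (Polynomial S) (Polynomial.C t) (Polynomial.X :: s.map Polynomial.C)
      (by simp [hsl]; omega)
    have h3 : ∀ (f : S → ℕ → S) (f' : Polynomial S → ℕ → Polynomial S)
        (_ : ∀ y, (fun k => Polynomial.C (f y k)) = f' (Polynomial.C y)),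
        (s.map Polynomial.C).map f' = (s.map f).map (fun (h : ℕ → S) k => Polynomial.C (h k)) := by
      intro f f' hf
      rw [List.map_map, List.map_map]
      apply List.map_congr_left
      intro y _
      exact (hf y).symm
    rw [List.map_cons, List.map_cons, h3 (tw t) (tw (Polynomial.C t))
      (fun y => map_tw Polynomial.C t y), h3 pw pw (fun y => map_pw Polynomial.C y)] at h0
    have h1 := congrArg (fun p => Polynomial.coeff p i) h0
    beta_reduce at h1
    have h4 : (fun l => algebraMap (ZMod 2) (Polynomial S) (q l)) =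
          (fun l => Polynomial.C (algebraMap (ZMod 2) S (q l))) := rfl
    rw [h4, coeff_Ev, coeff_Ev] at h1
    have h5 : (fun j => (pw (Polynomial.X : Polynomial S) j).coeff i) = dl i := by
      funext j
      simp only [pw, dl, Polynomial.coeff_X_pow]
      by_cases hik : j = i
      · simp [hik]
      · rw [if_neg hik, if_neg (fun h => hik h.symm)]
    rw [h5, Ev_dl_cons B i (by omega)] at h1
    rw [← h1]
    apply Ev_cons _ _ _ _ |>.trans
    apply sum_eq_zero
    intro k _
    by_cases hk : k ≤ 2
    · rw [hsm k hk, mul_zero]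
    · obtain ⟨k, rfl⟩ : ∃ k', k = k' + 3 := ⟨k - 3, by omega⟩
      have : (tw (Polynomial.C t) (Polynomial.X : Polynomial S) (k + 3)).coeff i = 0 := by
        show (Polynomial.X ^ (k + 2) * (Polynomial.X + Polynomial.C t)).coeff i = 0
        rw [Polynomial.coeff_X_pow_mul']
        rw [if_neg (by omega)]
      rw [this, zero_mul]
  -- translation by `x`, then harmonicity with parameter `x`
  have hlen : (x :: v).length = r := by simpa using hv
  rw [← hq.ti S x (x :: v) hlen]
  have h1 : (x :: v).map (fun y => pw (y + x)) = ((x :: v).map (fun y => y + x)).map pw := by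
    rw [List.map_map]; rfl
  rw [h1, ← hq.hm S x _ (by rw [List.length_map]; exact hlen), List.map_cons, List.map_cons]
  rw [show x + x = 0 from add_self_zmod x, tw_zero_right, Ev_cons_add, Ev_cons_smul,
    Ev_dl_cons B 0 (by omega), Ev_dl_cons B 1 (by omega)]
  have h2 : ∀ i, i ≤ 1 → Ev B ((v.map (fun y => y + x)).map (tw x))
      (fun l => algebraMap (ZMod 2) S (q (i :: l))) = 0 := by
    intro i hi
    apply Ev_expand B {g | g = pw 0 ∨ g = pw t} {g | g = tw x x ∨ g = tw x t} _ (r - 1) _ _ _ _ _
    · intro g hg
      rcases hg with rfl | rfl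
      · refine ⟨1, one_ne_zero, ?_⟩
        rw [one_smul, tw_self, ← hpw0]
        exact Submodule.subset_span (Or.inl rfl)
      · refine ⟨t, hc, ?_⟩
        have : t • tw x t = x • pw 0 + c • pw t := by
          funext k
          cases k with
          | zero => simp [tw, pw, ht]
          | succ k =>
            simp only [tw, pw, Pi.smul_apply, Pi.add_apply, smul_eq_mul]
            have : t + x = c := by
              rw [ht]
              calc x + c + x = c + (x + x) := by ring
                _ = c := by rw [add_self_zmod, add_zero]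
            rw [this, zero_pow (Nat.succ_ne_zero k)]
            ring
        rw [this]
        exact Submodule.add_mem _
          (Submodule.smul_mem _ _ (Submodule.subset_span (Or.inl rfl)))
          (Submodule.smul_mem _ _ (Submodule.subset_span (Or.inr rfl)))
    · intro gs hgs hmem
      exact key i hi gs hgs hmem
    · rw [List.length_map, List.length_map]; omega
    · intro g hg
      obtain ⟨z, hz, rfl⟩ := List.mem_map.1 hg
      obtain ⟨y, hy, rfl⟩ := List.mem_map.1 hz
      rcases hvc y hy with rfl | rfl
      · left; rw [zero_add]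
      · right
        rw [ht]
        congr 1
        ring
  rw [h2 0 (by omega), h2 1 (by omega)]
  ring




/-- Extraction of square-free coefficients from the values at slots in `{0, c}`. -/
theorem eq_zero_of_tw {S : Type} [CommRing S] [Algebra (ZMod 2) S] [IsDomain S] (hB : 2 ≤ B)
    (c : S) (hc : c ≠ 0) (n : ℕ) (K : List ℕ → S)
    (h : ∀ v : List S, v.length = n → (∀ y ∈ v, y = 0 ∨ y = c) → Ev B (v.map (tw c)) K = 0)
    (J : List ℕ) (hJ : J.length = n) (hJ1 : ∀ k ∈ J, k ≤ 1) : K J = 0 := by
  have : CharP S 2 := charP_zmod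
  rw [← Ev_map_dl B J (fun k hk => by have := hJ1 k hk; omega) K]
  apply Ev_expand B {g | g = tw c 0 ∨ g = tw c c} {g | g = dl 0 ∨ g = dl 1} _ n K _ _
    (by rw [List.length_map, hJ])
  · intro g hg
    obtain ⟨k, hk, rfl⟩ := List.mem_map.1 hg
    have := hJ1 k hk
    rcases (by omega : k = 0 ∨ k = 1) with rfl | rfl
    · left; rfl
    · right; rfl
  · intro g hg
    rcases hg with rfl | rfl
    · refine ⟨1, one_ne_zero, ?_⟩
      rw [one_smul, ← tw_self c]
      exact Submodule.subset_span (Or.inr rfl)
    · refine ⟨c, hc, ?_⟩
      have h1 : c • (dl 1 : ℕ → S) = tw c 0 + tw c c := by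
        rw [tw_zero_right, tw_self]
        funext k
        simp only [Pi.add_apply]
        calc (c • (dl 1 : ℕ → S)) k = (c • (dl 1 : ℕ → S)) k + (dl 0 k + dl 0 k) := by
              rw [add_self_zmod, add_zero]
          _ = _ := by ring
      rw [h1]
      exact Submodule.add_mem _ (Submodule.subset_span (Or.inl rfl))
        (Submodule.subset_span (Or.inr rfl))
  · intro gs hgs hmem
    obtain ⟨s, hs, rfl⟩ : ∃ s : List S, (∀ y ∈ s, y = 0 ∨ y = c) ∧ gs = s.map (tw c) := by
      clear hgs
      induction gs with
      | nil => exact ⟨[], by simp, rfl⟩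
      | cons g gs ih =>
        obtain ⟨s, hs, rfl⟩ := ih (fun g hg => hmem g (List.mem_cons_of_mem _ hg))
        rcases hmem g (by simp) with h | h
        · refine ⟨0 :: s, ?_, by rw [List.map_cons, h]⟩
          intro y hy
          rcases List.mem_cons.1 hy with rfl | hy
          · left; rfl
          · exact hs y hy
        · refine ⟨c :: s, ?_, by rw [List.map_cons, h]⟩
          intro y hy
          rcases List.mem_cons.1 hy with rfl | hy
          · right; rfl
          · exact hs y hy
    exact h s (by simpa using hgs) hs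

/-- Windows with one slot. -/
theorem wnd_one (hq : QSys B r q) (hB : 3 ≤ B) (hr : 1 ≤ r) : Wnd r q 1 := by
  intro u v hu hlen hv
  rcases u with _ | ⟨k, u⟩
  · rcases v with _ | ⟨a, v⟩
    · simp at hlen; omega
    · rw [List.nil_append]
      apply hq.p0 a v
      · have := hv a (by simp); omega
      · intro k hk; exact hv k (List.mem_cons_of_mem _ hk)
      · simpa using hlen
  · have hu0 : u = [] := by
      rw [List.length_cons] at hu
      rw [← List.length_eq_zero_iff]; omega
    subst hu0
    rw [List.singleton_append]
    have hvl : v.length = r - 1 := by simp at hlen; omega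
    by_cases hkB : k < B
    · -- the polynomial identity
      have h1 : ∀ J : List ℕ, J.length = r - 1 → (∀ k ∈ J, k ≤ 1) →
          ∑ k ∈ range B, tw 1 (Polynomial.X : Polynomial (ZMod 2)) k *
            algebraMap (ZMod 2) (Polynomial (ZMod 2)) (q (k :: J)) = 0 := by
        intro J hJ hJ1
        apply eq_zero_of_tw (B := B) (by omega) (1 : Polynomial (ZMod 2)) one_ne_zero (r - 1)
          (fun l => ∑ k ∈ range B, tw 1 (Polynomial.X : Polynomial (ZMod 2)) k *
            algebraMap (ZMod 2) (Polynomial (ZMod 2)) (q (k :: l))) _ J hJ hJ1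
        intro s hs hs1
        have h2 := G_small hq hB hr (Polynomial.X : Polynomial (ZMod 2)) 1
          (Polynomial.X_add_C_ne_zero 1) s (by omega) hs1
        rw [← hq.hm _ 1 (Polynomial.X :: s) (by simp; omega), List.map_cons, Ev_cons'] at h2
        exact h2
      have h3 := h1 v hvl hv
      obtain ⟨B', rfl⟩ : ∃ B', B = B' + 1 := ⟨B - 1, by omega⟩
      have h0 : q (0 :: v) = 0 := hq.p0 0 v (by omega) hv (by omega)
      rcases k with _ | k
      · exact h0
      · rw [sum_range_succ', h0, map_zero, mul_zero, add_zero] at h3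
        have h4 : (Polynomial.X + 1 : Polynomial (ZMod 2)) *
            ∑ k ∈ range B', Polynomial.C (q ((k + 1) :: v)) * Polynomial.X ^ k = 0 := by
          rw [mul_sum, ← h3]
          apply sum_congr rfl
          intro j _
          show _ = (Polynomial.X ^ j * (Polynomial.X + 1)) * Polynomial.C (q ((j + 1) :: v))
          ring
        have h5 := (mul_eq_zero.1 h4).resolve_left (Polynomial.X_add_C_ne_zero 1)
        have h6 := congrArg (fun p => Polynomial.coeff p k) h5
        beta_reduce at h6
        rw [Polynomial.finsetSum_coeff, sum_eq_single k] at h6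
        · simpa using h6
        · intro j _ hj
          rw [Polynomial.coeff_C_mul_X_pow, if_neg (fun h => hj h.symm)]
        · intro h
          exact absurd (mem_range.2 (by omega)) h
    · exact hq.bdd _ (by rw [List.length_cons]; omega) ⟨k, by simp, by omega⟩

/-- The differences of a path. -/
def df {S : Type} [CommRing S] (x : S) : List S → List S
  | [] => []
  | a :: v => (x + a) :: df a v

@[simp] theorem length_df {S : Type} [CommRing S] (x : S) (v : List S) :
    (df x v).length = v.length := by
  induction v generalizing x with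
  | nil => rfl
  | cons a v ih => rw [df, List.length_cons, ih, List.length_cons]

section
variable {S : Type} [CommRing S] [Algebra (ZMod 2) S]

theorem vt_df (x : S) (v : List S) : vt x (df x v) = v := by
  induction v generalizing x with
  | nil => rfl
  | cons a v ih =>
    have : x + (x + a) = a := by rw [← add_assoc, add_self_zmod, zero_add]
    rw [df, vt_cons, this, ih]

/-- Closure of `{0, c}` under addition. -/
theorem add_mem_two {c x y : S} (hx : x = 0 ∨ x = c) (hy : y = 0 ∨ y = c) :
    x + y = 0 ∨ x + y = c := by
  rcases hx with rfl | rfl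
  · rw [zero_add]; exact hy
  · rcases hy with rfl | rfl
    · right; rw [add_zero]
    · left; exact add_self_zmod _

theorem sum_mem_two {c : S} (L : List S) (h : ∀ y ∈ L, y = 0 ∨ y = c) :
    L.sum = 0 ∨ L.sum = c := by
  induction L with
  | nil => left; rfl
  | cons a L ih =>
    rw [List.sum_cons]
    exact add_mem_two (h a (by simp)) (ih (fun y hy => h y (List.mem_cons_of_mem _ hy)))

theorem vt_mem_two {c : S} (x : S) (hx : x = 0 ∨ x = c) (L : List S)
    (h : ∀ y ∈ L, y = 0 ∨ y = c) : ∀ y ∈ vt x L, y = 0 ∨ y = c := by
  induction L generalizing x with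
  | nil => simp
  | cons a L ih =>
    intro y hy
    rw [vt_cons] at hy
    have hxa := add_mem_two hx (h a (by simp))
    rcases List.mem_cons.1 hy with rfl | hy
    · exact hxa
    · exact ih _ hxa (fun y hy => h y (List.mem_cons_of_mem _ hy)) y hy

theorem df_mem_two {c : S} (x : S) (hx : x = 0 ∨ x = c) (L : List S)
    (h : ∀ y ∈ L, y = 0 ∨ y = c) : ∀ y ∈ df x L, y = 0 ∨ y = c := by
  induction L generalizing x with
  | nil => simp [df]
  | cons a L ih =>
    intro y hy
    rw [df] at hy
    rcases List.mem_cons.1 hy with rfl | hy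
    · exact add_mem_two hx (h a (by simp))
    · exact ih _ (h a (by simp)) (fun y hy => h y (List.mem_cons_of_mem _ hy)) y hy

theorem tw_two {c : S} [IsDomain S] {y : S} (hy : y = 0 ∨ y = c) (k : ℕ) (hk : 2 ≤ k) :
    tw c y k = 0 := by
  have : CharP S 2 := charP_zmod
  obtain ⟨k, rfl⟩ : ∃ k', k = k' + 2 := ⟨k - 2, by omega⟩
  rcases hy with rfl | rfl
  · rw [tw_zero_right]; simp [dl]
  · rw [tw_self]; simp [dl]

end

/-- The relations satisfied by a window with `m + 1` slots. -/
theorem relA_of_wnd (hq : QSys B r q) (hB : 3 ≤ B) {m : ℕ} (hwnd : Wnd r q m)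
    (J : List ℕ) (hJ : J.length + m + 1 = r) (hJ0 : 1 ≤ J.length) (hJ1 : ∀ k ∈ J, k ≤ 1)
    (K : List ℕ → ZMod 2) (hK : ∀ k l, K (k :: l) = q ((k + 1) :: l ++ J)) :
    RelA B m K := by
  intro S _ _ _ x c P W hx hc hxc hP hPc hPW
  have : CharP S 2 := charP_zmod
  obtain ⟨B', rfl⟩ : ∃ B', B = B' + 1 := ⟨B - 1, by omega⟩
  set Q : List ℕ → S := fun l => algebraMap (ZMod 2) S (q l) with hQ
  -- first: all slots twisted
  have hall : ∀ J : List ℕ, J.length + m + 1 = r → 1 ≤ J.length → (∀ k ∈ J, k ≤ 1) →
      sh (fun w => Ev (B' + 1) ((x :: vt x w).map (tw c)) (fun l => Q (l ++ J))) P W = 0 := by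
    intro J hJ hJ0 hJ1
    apply eq_zero_of_tw (B := B' + 1) (by omega) c hc J.length
      (fun J => sh (fun w => Ev (B' + 1) ((x :: vt x w).map (tw c)) (fun l => Q (l ++ J))) P W)
      _ J rfl hJ1
    intro v hv hvc
    rw [Ev_sh]
    have h1 : sh (fun w => Ev (B' + 1) (v.map (tw c)) (fun l' =>
        Ev (B' + 1) ((x :: vt x w).map (tw c)) (fun l => Q (l ++ l')))) P W =
        sh (fun w => Ev (B' + 1) ((x :: vt x w ++ v).map pw) Q) P W := by
      apply sh_congr
      intro w hw
      rw [← Ev_append', ← List.map_append]
      apply hq.hm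
      have := length_of_mem_shf hw
      simp only [List.length_append, List.length_cons, length_vt]
      omega
    rw [h1]
    clear h1
    rcases v with _ | ⟨v₀, v⟩
    · simp at hv; omega
    have hv₀ : v₀ = 0 ∨ v₀ = c := hvc v₀ (by simp)
    have hv' : ∀ y ∈ v, y = 0 ∨ y = c := fun y hy => hvc y (List.mem_cons_of_mem _ hy)
    have hvl : v.length + 1 = J.length := by simpa using hv
    set y := x + (P.sum + W.sum) with hy
    set A := df v₀ v with hA
    have hAc : ∀ a ∈ A, a = 0 ∨ a = c := df_mem_two v₀ hv₀ v hv'
    have hAl : A.length = v.length := length_df _ _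
    have hesh := hq.esh S x P (W ++ (y + v₀) :: A) hP (by simp) (by
      simp only [List.length_append, List.length_cons]
      omega)
    rw [sh_split] at hesh
    · rw [← hesh]
      apply sh_congr
      intro w hw
      congr 2
      rw [List.cons_append]
      congr 1
      rw [vt_append, vt_cons]
      have hsum : w.sum = P.sum + W.sum := by
        rw [(perm_of_mem_shf P W w hw).sum_eq, List.sum_append]
      have h2 : x + w.sum + (y + v₀) = v₀ := by
        rw [hsum, ← hy, ← add_assoc, add_self_zmod, zero_add]
      rw [h2, hA, vt_df]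
    · intro P' P'' hPP hP'' w₁ hw₁ w₂ hw₂
      have hlP : P'.length + P''.length = P.length := by
        rw [← List.length_append, hPP]
      have hlP'' : 1 ≤ P''.length := List.length_pos_iff.2 hP''
      have hl₁ := length_of_mem_shf hw₁
      have hl₂ := length_of_mem_shf hw₂
      have hP''c : ∀ p ∈ P'', p = 0 ∨ p = c := by
        intro p hp
        apply hPc
        rw [← hPP]
        exact List.mem_append_right _ hp
      have hw₂c : ∀ p ∈ w₂, p = 0 ∨ p = c := by
        intro p hp
        have := (perm_of_mem_shf _ _ _ hw₂).mem_iff.1 hp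
        rcases List.mem_append.1 this with h | h
        · exact hP''c p h
        · exact hAc p h
      have hu₀ : x + w₁.sum + (y + v₀) = 0 ∨ x + w₁.sum + (y + v₀) = c := by
        have hs₁ : w₁.sum = P'.sum + W.sum := by
          rw [(perm_of_mem_shf P' W w₁ hw₁).sum_eq, List.sum_append]
        have hs : P.sum = P'.sum + P''.sum := by rw [← hPP, List.sum_append]
        have h2 : x + w₁.sum + (y + v₀) = P''.sum + v₀ := by
          rw [hs₁, hy, hs]
          calc x + (P'.sum + W.sum) + (x + (P'.sum + P''.sum + W.sum) + v₀)
              = (x + x) + (P'.sum + P'.sum) + (W.sum + W.sum) + (P''.sum + v₀) := by ring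
            _ = P''.sum + v₀ := by
              rw [add_self_zmod x, add_self_zmod P'.sum, add_self_zmod W.sum]; ring
        rw [h2]
        exact add_mem_two (sum_mem_two P'' hP''c) hv₀
      have hvtc := vt_mem_two _ hu₀ w₂ hw₂c
      rw [← hq.hm S c (x :: vt x (w₁ ++ (y + v₀) :: w₂)) (by
        simp only [List.length_append, List.length_cons, length_vt]
        omega), vt_append, vt_cons]
      have h3 : x :: (vt x w₁ ++ (x + w₁.sum + (y + v₀)) :: vt (x + w₁.sum + (y + v₀)) w₂) =
          (x :: vt x w₁) ++ (x + w₁.sum + (y + v₀)) :: vt (x + w₁.sum + (y + v₀)) w₂ := rfl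
      rw [h3, List.map_append, Ev_append]
      apply Ev_eq_zero
      intro l hl _
      apply Ev_small
      · intro g hg k hk
        obtain ⟨z, hz, rfl⟩ := List.mem_map.1 hg
        apply tw_two _ k hk
        rcases List.mem_cons.1 hz with rfl | hz
        · exact hu₀
        · exact hvtc z hz
      · intro l' hl' hl'1
        have h4 : l.length = w₁.length + 1 := by
          rw [hl, List.length_map, List.length_cons, length_vt]
        have h5 : l'.length = w₂.length + 1 := by
          rw [hl', List.length_map, List.length_cons, length_vt]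
        show algebraMap (ZMod 2) S (q (l ++ l')) = 0
        rw [hwnd l l' (by omega) (by omega) hl'1, map_zero]
  -- second: cancel `x + c`
  have hmul : (x + c) * sh (fun w => Ev (B' + 1) (pw x :: (vt x w).map (tw c))
      (fun l => algebraMap (ZMod 2) S (K l))) P W = 0 := by
    rw [← hall J hJ hJ0 hJ1, sh, sh, ← List.sum_map_mul_left]
    congr 1
    apply List.map_congr_left
    intro w hw
    have hlw := length_of_mem_shf hw
    set E : ℕ → S := fun k => Ev (B' + 1) ((vt x w).map (tw c)) (fun l => Q (k :: l ++ J)) with hE
    have h1 : E 0 = 0 := by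
      apply Ev_eq_zero
      intro l hl _
      rw [List.length_map, length_vt] at hl
      have h2 : q ([0] ++ (l ++ J)) = 0 := by
        rw [hq.rot, List.append_assoc]
        apply hwnd l (J ++ [0]) (by omega)
        · simp; omega
        · intro k hk
          rcases List.mem_append.1 hk with h | h
          · exact hJ1 k h
          · simp at h; omega
      rw [List.singleton_append] at h2
      show algebraMap (ZMod 2) S (q (0 :: (l ++ J))) = 0
      rw [h2, map_zero]
    have h3 : E (B' + 1) = 0 := by
      apply Ev_eq_zero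
      intro l hl _
      rw [List.length_map, length_vt] at hl
      show algebraMap (ZMod 2) S (q ((B' + 1) :: l ++ J)) = 0
      rw [hq.bdd _ (by simp; omega) ⟨B' + 1, by simp, le_refl _⟩, map_zero]
    have h4 : ∀ k, Ev (B' + 1) ((vt x w).map (tw c))
        (fun l => algebraMap (ZMod 2) S (K (k :: l))) = E (k + 1) := by
      intro k
      rw [hE]
      congr 1
      funext l
      rw [hK]
    have h5 : Ev (B' + 1) (pw x :: (vt x w).map (tw c)) (fun l => algebraMap (ZMod 2) S (K l)) =
        ∑ k ∈ range B', x ^ k * E (k + 1) := by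
      rw [Ev_cons, sum_range_succ, h4, h3, mul_zero, add_zero]
      apply sum_congr rfl
      intro k _
      rw [h4]
      rfl
    have h6 : Ev (B' + 1) ((x :: vt x w).map (tw c)) (fun l => Q (l ++ J)) =
        ∑ k ∈ range B', x ^ k * (x + c) * E (k + 1) := by
      rw [List.map_cons, Ev_cons, sum_range_succ']
      have : tw c x 0 * Ev (B' + 1) ((vt x w).map (tw c)) (fun l => Q (0 :: l ++ J)) = 0 := by
        rw [show Ev (B' + 1) ((vt x w).map (tw c)) (fun l => Q (0 :: l ++ J)) = 0 from h1, mul_zero]
      rw [this, add_zero]
      rfl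
    show (x + c) * Ev (B' + 1) (pw x :: (vt x w).map (tw c))
      (fun l => algebraMap (ZMod 2) S (K l)) = Ev (B' + 1) ((x :: vt x w).map (tw c)) (fun l => Q (l ++ J))
    rw [h5, h6, mul_sum]
    apply sum_congr rfl
    intro k _
    ring
  exact (mul_eq_zero.1 hmul).resolve_left hxc

/-- The step from `m` to `m + 1` slots. -/
theorem wnd_succ (hq : QSys B r q) (hB : 3 ≤ B) {m : ℕ} (hm : 1 ≤ m) (hmr : m + 2 ≤ r) (hw : Wnd r q m) :
    Wnd r q (m + 1) := by
  intro u v hu hlen hv
  rcases Nat.lt_or_ge m u.length with h | h
  · have hum : u.length = m + 1 := by omega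
    by_cases hbd : ∃ k ∈ u, B ≤ k
    · obtain ⟨k, hk, hkB⟩ := hbd
      exact hq.bdd _ (by rw [List.length_append]; exact hlen)
        ⟨k, List.mem_append_left _ hk, hkB⟩
    · push Not at hbd
      rcases u with _ | ⟨k, u⟩
      · simp at hum
      · rcases k with _ | k
        · have h2 : q ([0] ++ (u ++ v)) = 0 := by
            rw [hq.rot, List.append_assoc]
            apply hw u (v ++ [0]) (by simp at hum; omega)
            · simp at hlen ⊢; omega
            · intro k hk
              rcases List.mem_append.1 hk with h | h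
              · exact hv k h
              · simp at h; omega
          exact h2
        · have h3 := Pool.Agent.ECV.lemA (B := B) (n := m) (K := fun l => match l with
            | [] => 0
            | k :: l => q ((k + 1) :: l ++ v)) (by omega) hm
            (relA_of_wnd hq hB hw v (by simp at hlen hum; omega) (by simp at hlen hum; omega) hv _
              (fun k l => rfl)) (k :: u) (by simpa using hum) (by
              intro i hi
              rcases List.mem_cons.1 hi with rfl | hi
              · have := hbd (i + 1) (by simp); omega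
              · exact hbd i (List.mem_cons_of_mem _ hi))
          exact h3
  · exact hw u v h hlen hv

/-- **A solution of the system `QSys` with at least two slots is zero.** -/
theorem qsys_zero (hq : QSys B r q) (hB : 3 ≤ B) (hr : 2 ≤ r) : ∀ l : List ℕ, l.length = r → q l = 0 := by
  apply zero_of_wnd hq (by omega) (by omega)
  have h : ∀ m, 1 ≤ m → m + 1 ≤ r → Wnd r q m := by
    intro m hm
    induction m, hm using Nat.le_induction with
    | base => intro _; exact wnd_one hq hB (by omega)
    | succ m hm ih => intro hmr; exact wnd_succ hq hB hm (by omega) (ih (by omega))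
  exact h (r - 1) (by omega) (by omega)


end Pool.Agent.ECV.Win
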