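import Pool.Agent.ECV.Fin
import Pool.Agent.ECV.P0
import Pool.Agent.ECV.Win

/-!
# Cleansing modulo 2, and the free generation of `dm`
-/

set_option autoImplicit false

namespace Pool.Agent.ECV

open Pool.Agent.ECA Pool.Agent.ECB
open Pool.Agent.H4DM Pool.Agent.H44DM

/-- Cleansing modulo 2. -/
theorem cleansing {w : ℕ} (hw : 3 ≤ w) : Cleansing w :=
  cleansing_of hw
    (fun c hc hv d _ _ hd => ⟨dpart (d + 1) (Pool.Agent.ECK.Nf c), nsys hc hw hv hd, by
      intro W hW
      have h1 : (1 :: W).count 1 = d + 1 := by rw [List.count_cons_self, hW]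
      show (if _ then Pool.Agent.ECK.Nf c (1 :: W) else 0) = c W
      rw [if_pos h1, Nf_one_cons hd hW]⟩)
    (fun _ _ _ h hr hB l hl => Win.qsys_zero h hB hr l hl)

/-- **Free odd generation of `dm`.** -/
theorem free_generation_dm :
    ∃ s : ℕ → IharaLie,
      (∀ n, IsDM (s n).val ∧ ∀ l : List (Fin 2), cf (s n).val l ≠ 0 → l.length = 2 * n + 3) ∧
      Function.Injective (FreeLieAlgebra.lift ℚ s) ∧
      ∀ ψ : IharaLie, ψ ∈ (FreeLieAlgebra.lift ℚ s).range ↔ IsDM ψ.val :=
  free_generation_of_cleansing (fun _ hw => cleansing hw)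

end Pool.Agent.ECV
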