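import Pool.Agent.ECV.Ev

/-!
# The system of equations for the slot functional

`q [k₁,…,k_r]` is the coefficient of the cyclic word `a b^{k₁} ⋯ a b^{k_r}`.
-/

set_option autoImplicit false

namespace Pool.Agent.ECV

open Pool.Agent.ECB

/-- The slot functional of a solution of the double shuffle equations modulo 2 which vanishes on
the words without unit.  `B` is a bound for the exponents, `r` the number of slots. -/
structure QSys (B r : ℕ) (q : List ℕ → ZMod 2) : Prop where
  /-- exponents are smaller than `B` -/
  bdd : ∀ l : List ℕ, l.length = r → (∃ k ∈ l, B ≤ k) → q l = 0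
  /-- rotation -/
  rot : ∀ u v : List ℕ, q (u ++ v) = q (v ++ u)
  /-- translation invariance -/
  ti : ∀ (S : Type) [CommRing S] [Algebra (ZMod 2) S] (z : S) (v : List S), v.length = r →
    Ev B (v.map (fun x => pw (x + z))) (fun l => algebraMap (ZMod 2) S (q l)) =
      Ev B (v.map pw) (fun l => algebraMap (ZMod 2) S (q l))
  /-- harmonicity -/
  hm : ∀ (S : Type) [CommRing S] [Algebra (ZMod 2) S] (z : S) (v : List S), v.length = r →
    Ev B (v.map (tw z)) (fun l => algebraMap (ZMod 2) S (q l)) =
      Ev B (v.map pw) (fun l => algebraMap (ZMod 2) S (q l))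
  /-- shuffles of the edges -/
  esh : ∀ (S : Type) [CommRing S] [Algebra (ZMod 2) S] (x : S) (u v : List S), u ≠ [] → v ≠ [] →
    u.length + v.length + 1 = r →
    sh (fun w => Ev B ((x :: vt x w).map pw) (fun l => algebraMap (ZMod 2) S (q l))) u v = 0
  /-- vanishing on square-free slots, one slot being allowed to have exponent 2 -/
  p0 : ∀ (a : ℕ) (l : List ℕ), a ≤ 2 → (∀ k ∈ l, k ≤ 1) → l.length + 1 = r → q (a :: l) = 0

end Pool.Agent.ECV
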