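import Pool.Agent.ECV.NSys
import Pool.Agent.ECV.QSys

/-!
# Shuffles of words give shuffles of paths

`Jp B x L c` is the sum of `x₀^{k₀} x₁^{k₁} ⋯ c(b^{k₀} a b^{k₁} a ⋯)` where `x₀ = x` and
`x₁, x₂, …` are the vertices of the path with the steps `L`.  These series are multiplied by
shuffling the steps.
-/

set_option autoImplicit false

namespace Pool.Agent.ECV

open Pool.Agent.ECB Finset

section
variable {S : Type*} [CommRing S]

/-- The sum of `x₀^{k₀} x₁^{k₁} ⋯ c(b^{k₀} a b^{k₁} a ⋯)`. -/
def Jp (B : ℕ) (x : S) (L : List S) (c : List (Fin 2) → S) : S :=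
  Ev B (pw x :: (vt x L).map pw) (fun l => c ((ab l).tail))

/-- The part of `Jp` of the words which do not start with `b`. -/
def Hp (B : ℕ) (x : S) : List S → (List (Fin 2) → S) → S
  | [], c => c []
  | a :: L, c => Jp B (x + a) L (fun W => c (0 :: W))

/-- Left quotient by a letter. -/
def qu (a : Fin 2) (c : List (Fin 2) → S) : List (Fin 2) → S := fun W => c (a :: W)

/-- `c` vanishes on the words with at least `m` letters `b`. -/
def Bd (m : ℕ) (c : List (Fin 2) → S) : Prop := ∀ W, m ≤ W.count 1 → c W = 0

theorem Jp_eq (B : ℕ) (x : S) (L : List S) (c : List (Fin 2) → S) :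
    Jp B x L c = ∑ k ∈ range B, x ^ k * Ev B ((vt x L).map pw)
      (fun l => c (List.replicate k 1 ++ ab l)) := rfl

theorem Jp_nil (B : ℕ) (x : S) (c : List (Fin 2) → S) :
    Jp B x [] c = ∑ k ∈ range B, x ^ k * c (List.replicate k 1) := by
  rw [Jp_eq]
  apply sum_congr rfl
  intro k _
  simp [vt]

theorem Ev_vt_cons (B : ℕ) (x a : S) (L : List S) (c : List (Fin 2) → S) :
    Ev B ((vt x (a :: L)).map pw) (fun l => c (ab l)) = Jp B (x + a) L (fun W => c (0 :: W)) := by
  rw [Jp]
  show Ev B (pw (x + a) :: (vt (x + a) L).map pw) (fun l => c (ab l)) = _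
  apply Ev_congr
  intro l hl _
  cases l with
  | nil => simp at hl
  | cons k l => rfl

theorem Jp_zero (B : ℕ) (x : S) (L : List S) : Jp B x L (fun _ => 0) = 0 := Ev_zero _ _

theorem Jp_add (B : ℕ) (x : S) (L : List S) (c c' : List (Fin 2) → S) :
    Jp B x L (fun W => c W + c' W) = Jp B x L c + Jp B x L c' := Ev_add _ _ _ _

theorem Jp_smul (B : ℕ) (x a : S) (L : List S) (c : List (Fin 2) → S) :
    Jp B x L (fun W => a * c W) = a * Jp B x L c := Ev_smul _ _ _ _

theorem Jp_congr (B : ℕ) (x : S) (L : List S) {c c' : List (Fin 2) → S}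
    (h : ∀ W, c W = c' W) : Jp B x L c = Jp B x L c' := by
  have : c = c' := funext h
  rw [this]

theorem Bd.qu {m : ℕ} {c : List (Fin 2) → S} (h : Bd m c) (a : Fin 2) : Bd m (qu a c) := by
  intro W hW
  apply h
  rw [List.count_cons]
  omega

theorem Bd.qu_one {m : ℕ} {c : List (Fin 2) → S} (h : Bd (m + 1) c) : Bd m (ECV.qu 1 c) := by
  intro W hW
  apply h
  rw [List.count_cons]
  simpa using hW

theorem Bd.mono {m n : ℕ} {c : List (Fin 2) → S} (h : Bd m c) (hn : m ≤ n) : Bd n c :=
  fun W hW => h W (hn.trans hW)

/-- The recursion for `Jp`. -/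
theorem Jp_rec {B : ℕ} (x : S) (L : List S) {c : List (Fin 2) → S} (h : Bd B c) :
    Jp B x L c = Hp B x L c + x * Jp B x L (qu 1 c) := by
  cases B with
  | zero =>
    have hc : c = fun _ => 0 := funext fun W => h W (Nat.zero_le _)
    subst hc
    rw [Jp_zero]
    have h2 : qu 1 (fun _ : List (Fin 2) => (0 : S)) = fun _ => 0 := rfl
    rw [h2, Jp_zero]
    cases L with
    | nil => simp [Hp]
    | cons a L => simp [Hp, Jp_zero]
  | succ B =>
    have h1 : Jp (B + 1) x L c = Ev (B + 1) ((vt x L).map pw) (fun l => c (ab l)) +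
        x * ∑ k ∈ range (B + 1), x ^ k * Ev (B + 1) ((vt x L).map pw)
          (fun l => c (List.replicate (k + 1) 1 ++ ab l)) := by
      rw [Jp_eq, sum_range_succ', sum_range_succ]
      have h3 : Ev (B + 1) ((vt x L).map pw)
          (fun l => c (List.replicate (B + 1) 1 ++ ab l)) = 0 := by
        apply Ev_eq_zero
        intro l _ _
        apply h
        rw [List.count_append, List.count_replicate_self]
        omega
      rw [h3]
      simp only [pow_zero, one_mul, List.replicate_zero, List.nil_append, mul_zero, add_zero]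
      rw [add_comm, mul_sum]
      congr 1
      apply sum_congr rfl
      intro k _
      ring
    rw [h1]
    congr 1
    · cases L with
      | nil => simp [Hp, vt]
      | cons a L => rw [Ev_vt_cons]; rfl

theorem sh_Bd {m : ℕ} {c : List (Fin 2) → S} (h : Bd m c) (u v : List (Fin 2))
    (huv : m ≤ u.count 1 + v.count 1) : sh c u v = 0 := by
  rw [sh]
  have : (shf u v).map c = (shf u v).map (fun _ => (0 : S)) := by
    apply List.map_congr_left
    intro t ht
    apply h
    rw [(perm_of_mem_shf u v t ht).count_eq, List.count_append]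
    exact huv
  rw [this]
  simp

theorem sh_zero_fun {α : Type*} (u v : List α) : sh (fun _ => (0 : S)) u v = 0 := by
  rw [sh]; simp

theorem sh_smul_fun {α : Type*} (a : S) (c : List α → S) (u v : List α) :
    sh (fun t => a * c t) u v = a * sh c u v := by
  rw [sh, sh, List.sum_map_mul_left]

/-- The part of `sh c` in which the first letter comes from the first word. -/
def s1 (c : List (Fin 2) → S) : List (Fin 2) → List (Fin 2) → S
  | [], _ => 0
  | a :: u, v => sh (qu a c) u v

/-- The part of `sh c` in which the first letter comes from the second word. -/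
def s2 (c : List (Fin 2) → S) (u : List (Fin 2)) : List (Fin 2) → S
  | [] => 0
  | b :: v => sh (qu b c) u v

/-- The rest. -/
def s0 (c : List (Fin 2) → S) : List (Fin 2) → List (Fin 2) → S
  | [], [] => c []
  | _, _ => 0

theorem sh_split01 (c : List (Fin 2) → S) (u v : List (Fin 2)) :
    sh c u v = s0 c u v + (s1 c u v + s2 c u v) := by
  cases u with
  | nil =>
    cases v with
    | nil => simp [s0, s1, s2]
    | cons b v => simp [s0, s1, s2, qu]
  | cons a u =>
    cases v with
    | nil => simp [s0, s1, s2, qu]
    | cons b v =>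
      rw [sh_cons_cons]
      show _ = 0 + (sh (qu a c) u (b :: v) + sh (qu b c) (a :: u) v)
      rw [zero_add]
      rfl

/-- The pairing of `sh c` with two path series. -/
def Ph (B : ℕ) (x : S) (U : List S) (y : S) (V : List S) (c : List (Fin 2) → S) : S :=
  Jp B x U (fun u => Jp B y V (fun v => sh c u v))

theorem Ph_zero (B : ℕ) (x : S) (U : List S) (y : S) (V : List S) :
    Ph B x U y V (fun _ => 0) = 0 := by
  rw [Ph]
  have : (fun u : List (Fin 2) => Jp B y V (fun v => sh (fun _ => (0 : S)) u v)) =
      fun _ => 0 := by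
    funext u
    have : (fun v : List (Fin 2) => sh (fun _ => (0 : S)) u v) = fun _ => 0 := by
      funext v
      exact sh_zero_fun u v
    rw [this, Jp_zero]
  rw [this, Jp_zero]

/-- The head of `Ph` with the first letter `a` from the first word. -/
def H1 (B : ℕ) (x : S) (U : List S) (y : S) (V : List S) (c : List (Fin 2) → S) : S :=
  match U with
  | [] => 0
  | a :: U => Ph B (x + a) U y V (qu 0 c)

/-- The head of `Ph` with the first letter `a` from the second word. -/
def H2 (B : ℕ) (x : S) (U : List S) (y : S) (V : List S) (c : List (Fin 2) → S) : S :=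
  match V with
  | [] => 0
  | b :: V => Ph B x U (y + b) V (qu 0 c)

/-- The constant part of `Ph`. -/
def H0 (U V : List S) (c : List (Fin 2) → S) : S :=
  match U, V with
  | [], [] => c []
  | _, _ => 0

theorem Jp_s1 {B : ℕ} (x : S) (U : List S) (y : S) (V : List S) {c : List (Fin 2) → S}
    (h : Bd B c) :
    Jp B x U (fun u => Jp B y V (fun v => s1 c u v)) = H1 B x U y V c + x * Ph B x U y V (qu 1 c) := by
  rw [Jp_rec]
  · congr 1
    cases U with
    | nil =>
      show Jp B y V (fun v => s1 c [] v) = 0
      exact Jp_zero B y V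
    | cons a U => rfl
  · intro u hu
    cases u with
    | nil => exact Jp_zero B y V
    | cons a u =>
      show Jp B y V (fun v => sh (qu a c) u v) = 0
      have : (fun v => sh (qu a c) u v) = fun _ => 0 := by
        funext v
        rw [sh]
        have h3 : (shf u v).map (qu a c) = (shf u v).map (fun _ => (0 : S)) := by
          apply List.map_congr_left
          intro t ht
          apply h
          rw [List.count_cons, (perm_of_mem_shf u v t ht).count_eq, List.count_append]
          rw [List.count_cons] at hu
          omega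
        rw [h3]
        simp
      rw [this, Jp_zero]

theorem Jp_s2 {B : ℕ} (x : S) (U : List S) (y : S) (V : List S) {c : List (Fin 2) → S}
    (h : Bd B c) :
    Jp B x U (fun u => Jp B y V (fun v => s2 c u v)) = H2 B x U y V c + y * Ph B x U y V (qu 1 c) := by
  have h1 : ∀ u : List (Fin 2), Jp B y V (fun v => s2 c u v) =
      (match V with
        | [] => 0
        | b :: V => Jp B (y + b) V (fun v => sh (qu 0 c) u v)) +
      y * Jp B y V (fun v => sh (qu 1 c) u v) := by
    intro u
    rw [Jp_rec]
    · congr 1
      cases V with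
      | nil => rfl
      | cons b V => rfl
    · intro v hv
      cases v with
      | nil => rfl
      | cons a v =>
        show sh (qu a c) u v = 0
        rw [sh]
        have h3 : (shf u v).map (qu a c) = (shf u v).map (fun _ => (0 : S)) := by
          apply List.map_congr_left
          intro t ht
          apply h
          rw [List.count_cons, (perm_of_mem_shf u v t ht).count_eq, List.count_append]
          rw [List.count_cons] at hv
          omega
        rw [h3]
        simp
  rw [Jp_congr B x U h1, Jp_add, Jp_smul]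
  congr 1
  cases V with
  | nil => exact Jp_zero B x U
  | cons b V => rfl

theorem Jp_s0 {B : ℕ} (hB : 1 ≤ B) (x : S) (U : List S) (y : S) (V : List S)
    (c : List (Fin 2) → S) :
    Jp B x U (fun u => Jp B y V (fun v => s0 c u v)) = H0 U V c := by
  have h1 : ∀ u : List (Fin 2), Jp B y V (fun v => s0 c u v) =
      match V, u with
        | [], [] => c []
        | _, _ => 0 := by
    intro u
    rw [Jp_rec]
    · have h2 : qu 1 (fun v => s0 c u v) = fun _ => 0 := by
        funext v
        cases u <;> rfl
      rw [h2, Jp_zero, mul_zero, add_zero]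
      cases V with
      | nil =>
        cases u <;> rfl
      | cons b V =>
        show Jp B (y + b) V (fun v => s0 c u (0 :: v)) = _
        have h3 : (fun v => s0 c u (0 :: v)) = fun _ => 0 := by
          funext v
          cases u <;> rfl
        rw [h3, Jp_zero]
    · intro v hv
      cases v with
      | nil => simp at hv; omega
      | cons a v => cases u <;> rfl
  rw [Jp_congr B x U h1, Jp_rec]
  · cases V with
    | nil =>
      have h2 : qu 1 (fun u : List (Fin 2) => (match ([] : List S), u with
        | [], [] => c []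
        | _, _ => 0 : S)) = fun _ => 0 := by
        funext v
        rfl
      rw [h2, Jp_zero, mul_zero, add_zero]
      cases U with
      | nil => rfl
      | cons a U =>
        show Jp B (x + a) U (fun _ => 0) = 0
        exact Jp_zero _ _ _
    | cons b V =>
      have h2 : qu 1 (fun u : List (Fin 2) => (match (b :: V), u with
        | [], [] => c []
        | _, _ => 0 : S)) = fun _ => 0 := by
        funext v
        rfl
      rw [h2, Jp_zero, mul_zero, add_zero]
      cases U with
      | nil => rfl
      | cons a U =>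
        show Jp B (x + a) U (fun _ => 0) = 0
        exact Jp_zero _ _ _
  · intro v hv
    cases v with
    | nil => simp at hv; omega
    | cons a v => cases V <;> rfl

theorem Ph_rec {B : ℕ} (hB : 1 ≤ B) (x : S) (U : List S) (y : S) (V : List S)
    {c : List (Fin 2) → S} (h : Bd B c) :
    Ph B x U y V c = H0 U V c + (H1 B x U y V c + H2 B x U y V c) +
      (x + y) * Ph B x U y V (qu 1 c) := by
  rw [Ph]
  have h1 : ∀ u : List (Fin 2), Jp B y V (fun v => sh c u v) =
      Jp B y V (fun v => s0 c u v) + (Jp B y V (fun v => s1 c u v) +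
        Jp B y V (fun v => s2 c u v)) := by
    intro u
    rw [← Jp_add, ← Jp_add]
    exact Jp_congr B y V (fun v => sh_split01 c u v)
  rw [Jp_congr B x U h1, Jp_add, Jp_add, Jp_s0 hB, Jp_s1 x U y V h, Jp_s2 x U y V h]
  ring

/-- The series of paths are multiplied by shuffling the steps. -/
theorem Ph_eq {B : ℕ} (hB : 1 ≤ B) (m n : ℕ) (hm : m ≤ B) (x : S) (U : List S) (y : S)
    (V : List S) (hn : U.length + V.length = n) {c : List (Fin 2) → S} (h : Bd m c) :
    Ph B x U y V c = sh (fun L => Jp B (x + y) L c) U V := by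
  induction n using Nat.strong_induction_on generalizing m x U y V c with
  | _ n ihn =>
  induction m generalizing c with
  | zero =>
    have hc : c = fun _ => 0 := funext fun W => h W (Nat.zero_le _)
    subst hc
    rw [Ph_zero]
    have : (fun L => Jp B (x + y) L (fun _ => (0 : S))) = fun _ => 0 := by
      funext L
      exact Jp_zero _ _ _
    rw [this, sh_zero_fun]
  | succ m ihm =>
    rw [Ph_rec hB x U y V (h.mono hm), ihm (by omega) h.qu_one]
    have h1 : (fun L => Jp B (x + y) L c) =
        fun L => Hp B (x + y) L c + (x + y) * Jp B (x + y) L (qu 1 c) := by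
      funext L
      exact Jp_rec (x + y) L (h.mono hm)
    rw [h1, sh_add, sh_smul_fun]
    congr 1
    cases U with
    | nil =>
      cases V with
      | nil => simp [H0, H1, H2, Hp]
      | cons b V =>
        rw [sh_nil_left]
        show 0 + (0 + Ph B x [] (y + b) V (qu 0 c)) = Jp B (x + y + b) V (qu 0 c)
        rw [ihn V.length (by simp at hn; omega) (m + 1) hm x [] (y + b) V (by simp) (h.qu 0),
          sh_nil_left]
        rw [zero_add, zero_add, add_assoc]
    | cons a U =>
      cases V with
      | nil =>
        rw [sh_nil_right]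
        show 0 + (Ph B (x + a) U y [] (qu 0 c) + 0) = Jp B (x + y + a) U (qu 0 c)
        rw [ihn U.length (by simp at hn; omega) (m + 1) hm (x + a) U y [] (by simp) (h.qu 0),
          sh_nil_right]
        rw [zero_add, add_zero, add_right_comm]
      | cons b V =>
        rw [sh_cons_cons]
        show 0 + (Ph B (x + a) U y (b :: V) (qu 0 c) + Ph B x (a :: U) (y + b) V (qu 0 c)) =
          sh (fun L => Jp B (x + y + a) L (qu 0 c)) U (b :: V) +
          sh (fun L => Jp B (x + y + b) L (qu 0 c)) (a :: U) V
        simp only [List.length_cons] at hn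
        rw [ihn (U.length + (V.length + 1)) (by omega) (m + 1) hm (x + a) U y (b :: V)
            (by simp) (h.qu 0),
          ihn (U.length + 1 + V.length) (by omega) (m + 1) hm x (a :: U) (y + b) V
            (by simp) (h.qu 0)]
        rw [zero_add, add_right_comm x a y, ← add_assoc x y b]

/-- `Jp` only sees words with `L.length` letters `a`. -/
theorem Jp_congr_count (B : ℕ) (x : S) (L : List S) {c c' : List (Fin 2) → S}
    (h : ∀ W : List (Fin 2), W.count 0 = L.length → c W = c' W) :
    Jp B x L c = Jp B x L c' := by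
  rw [Jp_eq, Jp_eq]
  apply sum_congr rfl
  intro k _
  congr 1
  apply Ev_congr
  intro l hl _
  apply h
  rw [List.count_append, count_zero_ab, List.count_replicate, hl, List.length_map]
  have : (vt x L).length = L.length := by
    clear hl h
    induction L generalizing x with
    | nil => rfl
    | cons a L ih => simp [vt, ih]
  rw [this]
  simp

theorem Ev_pw_eq_Jp (B : ℕ) (x : S) (L : List S) (c : List (Fin 2) → S) :
    Ev B ((x :: vt x L).map pw) (fun l => c (ab l)) = Jp B x L (fun W => c (0 :: W)) := by
  rw [Jp]
  apply Ev_congr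
  intro l hl _
  cases l with
  | nil => simp at hl
  | cons k l => rfl

end

section
variable {S : Type} [CommRing S] [Algebra (ZMod 2) S]

theorem sh_algebraMap (N : List (Fin 2) → ZMod 2) (u v : List (Fin 2)) :
    sh (fun W => algebraMap (ZMod 2) S (N W)) u v = algebraMap (ZMod 2) S (sh N u v) := by
  rw [sh, sh, map_list_sum, List.map_map]
  rfl

/-- The shuffle relations of the edges. -/
theorem esh_of {B : ℕ} (hB : 1 ≤ B) {N : List (Fin 2) → ZMod 2}
    (hbd : ∀ W : List (Fin 2), B ≤ W.count 1 → N W = 0)
    (hlie : ∀ u v : List (Fin 2), u ≠ [] → v ≠ [] → sh (fun W => N (0 :: W)) u v = 0)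
    (x : S) (U V : List S) (hU : U ≠ []) (hV : V ≠ []) :
    sh (fun w => Ev B ((x :: vt x w).map pw) (fun l => algebraMap (ZMod 2) S (N (ab l)))) U V
      = 0 := by
  have h1 : (fun w => Ev B ((x :: vt x w).map pw) (fun l => algebraMap (ZMod 2) S (N (ab l)))) =
      fun w => Jp B (x + 0) w (fun W => algebraMap (ZMod 2) S (N (0 :: W))) := by
    funext w
    rw [add_zero]
    exact Ev_pw_eq_Jp B x w (fun W => algebraMap (ZMod 2) S (N W))
  have hbd' : Bd B (fun W => algebraMap (ZMod 2) S (N (0 :: W))) := by
    intro W hW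
    show algebraMap (ZMod 2) S (N (0 :: W)) = 0
    rw [hbd, map_zero]
    rw [List.count_cons]
    omega
  rw [h1, ← Ph_eq hB B _ le_rfl x U 0 V rfl hbd', Ph]
  rw [Jp_congr_count B x U (c' := fun _ => 0), Jp_zero]
  intro u hu
  rw [Jp_congr_count B 0 V (c' := fun _ => 0), Jp_zero]
  intro v hv
  have hu' : u ≠ [] := by
    rintro rfl
    simp at hu
    exact hU (List.eq_nil_of_length_eq_zero hu.symm)
  have hv' : v ≠ [] := by
    rintro rfl
    simp at hv
    exact hV (List.eq_nil_of_length_eq_zero hv.symm)
  rw [sh_algebraMap (fun W => N (0 :: W)), hlie u v hu' hv', map_zero]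

/-- Translation invariance of the path series. -/
theorem Jp_ti {B : ℕ} (hB : 1 ≤ B) {N : List (Fin 2) → ZMod 2}
    (hbd : ∀ W : List (Fin 2), B ≤ W.count 1 → N W = 0)
    (hlie : ∀ u v : List (Fin 2), u ≠ [] → v ≠ [] → sh (fun W => N (0 :: W)) u v = 0)
    (x z : S) (U : List S) (hU : U ≠ []) :
    Jp B (x + z) U (fun W => algebraMap (ZMod 2) S (N (0 :: W))) =
      Jp B x U (fun W => algebraMap (ZMod 2) S (N (0 :: W))) := by
  have hbd' : Bd B (fun W => algebraMap (ZMod 2) S (N (0 :: W))) := by
    intro W hW
    show algebraMap (ZMod 2) S (N (0 :: W)) = 0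
    rw [hbd, map_zero]
    rw [List.count_cons]
    omega
  have h1 := Ph_eq hB B _ le_rfl x U z [] rfl hbd'
  rw [sh_nil_right] at h1
  rw [← h1, Ph]
  apply Jp_congr_count
  intro u hu
  have hu' : u ≠ [] := by
    rintro rfl
    simp at hu
    exact hU (List.eq_nil_of_length_eq_zero hu.symm)
  rw [Jp_nil, sum_eq_single_of_mem 0 (mem_range.2 hB)]
  · simp
  · intro k _ hk
    rw [sh_algebraMap (fun W => N (0 :: W)), hlie u _ hu', map_zero, mul_zero]
    intro h
    apply hk
    have := congrArg List.length h
    simpa using this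

/-- The steps of a path. -/
def stp (x : S) : List S → List S
  | [] => []
  | a :: v => (a - x) :: stp a v

omit [Algebra (ZMod 2) S] in
theorem vt_stp (x : S) (v : List S) : vt x (stp x v) = v := by
  induction v generalizing x with
  | nil => rfl
  | cons a v ih =>
    show (x + (a - x)) :: vt (x + (a - x)) (stp a v) = a :: v
    rw [add_sub_cancel, ih]

omit [Algebra (ZMod 2) S] in
theorem vt_add (x z : S) (L : List S) : vt (x + z) L = (vt x L).map (· + z) := by
  induction L generalizing x with
  | nil => rfl
  | cons a L ih =>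
    show (x + z + a) :: vt (x + z + a) L = (x + a + z) :: (vt (x + a) L).map (· + z)
    rw [add_right_comm x z a, ih]

/-- Translation invariance of the slot functional. -/
theorem ti_of {B : ℕ} (hB : 1 ≤ B) {N : List (Fin 2) → ZMod 2}
    (hbd : ∀ W : List (Fin 2), B ≤ W.count 1 → N W = 0)
    (hlie : ∀ u v : List (Fin 2), u ≠ [] → v ≠ [] → sh (fun W => N (0 :: W)) u v = 0)
    (z : S) (v : List S) (hv : 2 ≤ v.length) :
    Ev B (v.map (fun x => pw (x + z))) (fun l => algebraMap (ZMod 2) S (N (ab l))) =
      Ev B (v.map pw) (fun l => algebraMap (ZMod 2) S (N (ab l))) := by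
  cases v with
  | nil => simp at hv
  | cons x v =>
    have h0 : stp x v ≠ [] := by
      cases v with
      | nil => simp at hv
      | cons a v => simp [stp]
    have h1 : (x :: v).map (fun x => pw (x + z)) = ((x + z) :: vt (x + z) (stp x v)).map pw := by
      rw [vt_add, vt_stp, List.map_cons, List.map_cons, List.map_map]
      rfl
    have h2 : (x :: v).map pw = (x :: vt x (stp x v)).map pw := by rw [vt_stp]
    rw [h1, h2, Ev_pw_eq_Jp B (x + z) (stp x v) (fun W => algebraMap (ZMod 2) S (N W)),
      Ev_pw_eq_Jp B x (stp x v) (fun W => algebraMap (ZMod 2) S (N W))]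
    exact Jp_ti hB hbd hlie x z (stp x v) h0

end

section
variable {w D : ℕ} {N : List (Fin 2) → ZMod 2}

theorem NSys.esh (h : NSys w D N) (S : Type) [CommRing S] [Algebra (ZMod 2) S] (x : S)
    (u v : List S) (hu : u ≠ []) (hv : v ≠ []) :
    sh (fun t => Ev (D + 1) ((x :: vt x t).map pw)
      (fun l => algebraMap (ZMod 2) S (N (ab l)))) u v = 0 := by
  apply esh_of (by omega) _ h.lie x u v hu hv
  intro W hW
  apply h.dep
  omega

theorem NSys.ti (h : NSys w D N) (S : Type) [CommRing S] [Algebra (ZMod 2) S] (z : S)
    (v : List S) (hv : 2 ≤ v.length) :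
    Ev (D + 1) (v.map (fun x => pw (x + z))) (fun l => algebraMap (ZMod 2) S (N (ab l))) =
      Ev (D + 1) (v.map pw) (fun l => algebraMap (ZMod 2) S (N (ab l))) := by
  apply ti_of (by omega) _ h.lie z v hv
  intro W hW
  apply h.dep
  omega

theorem NSys.bdd (h : NSys w D N) (l : List ℕ) (hl : ∃ k ∈ l, D + 1 ≤ k) : N (ab l) = 0 := by
  apply h.dep
  rw [count_one_ab]
  obtain ⟨k, hk, hk'⟩ := hl
  have := List.single_le_sum (l := l) (fun x _ => Nat.zero_le x) k hk
  omega

theorem NSys.rot (h : NSys w D N) (u v : List ℕ) : N (ab (u ++ v)) = N (ab (v ++ u)) := by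
  rw [ab_append, ab_append, h.cyc]

theorem NSys.p0' (h : NSys w D N) (a : ℕ) (l : List ℕ) (ha : a ≤ 2) (hl : ∀ k ∈ l, k ≤ 1) :
    N (ab (a :: l)) = 0 :=
  h.p0 [] l a (by simp) hl ha

/-- `NSys` gives `QSys`, except for harmonicity. -/
theorem NSys.toQSys (h : NSys w D N) {r : ℕ} (hr : 2 ≤ r)
    (hm : ∀ (S : Type) [CommRing S] [Algebra (ZMod 2) S] (z : S) (v : List S), v.length = r →
      Ev (D + 1) (v.map (tw z)) (fun l => algebraMap (ZMod 2) S (N (ab l))) =
        Ev (D + 1) (v.map pw) (fun l => algebraMap (ZMod 2) S (N (ab l)))) :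
    QSys (D + 1) r (fun l => N (ab l)) where
  bdd := fun l _ hl => h.bdd l hl
  rot := h.rot
  ti := fun S _ _ z v hv => h.ti S z v (by omega)
  hm := hm
  esh := fun S _ _ x u v hu hv _ => h.esh S x u v hu hv
  p0 := fun a l ha hl _ => h.p0' a l ha hl

end

end Pool.Agent.ECV
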