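import Pool.Agent.ECV.Hm
import Pool.Agent.ECV.Path

/-!
# The slot functional of an `NSys` is a `QSys`
-/

set_option autoImplicit false

namespace Pool.Agent.ECV

/-- The slot functional of an `NSys` satisfies the system `QSys`. -/
theorem NSys.qsys {w D : ℕ} {N : List (Fin 2) → ZMod 2} (h : NSys w D N) {r : ℕ} (hr : 2 ≤ r) :
    QSys (D + 1) r (fun l => N (ab l)) :=
  h.toQSys hr fun S _ _ z v hv => h.hm (Nat.lt_succ_self D) z v
    (by rintro rfl; simp at hv; omega) (fun v' hv' => h.ti S z v' (by omega))

end Pool.Agent.ECV
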