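import Pool.Agent.ECA.KVDone
import Pool.Agent.ECV.Qs

/-!
# Cleansing from the cyclic systems

`cleansing_of`: `Cleansing w` follows from the vanishing of all slot systems `QSys B r q` with
`2 ≤ r`, `3 ≤ B`, and from the construction of the cyclic system of the lowest depth part.
-/

set_option autoImplicit false

namespace Pool.Agent.ECV

open Pool.Agent.ECA Pool.Agent.ECB
open Pool.Agent.ECK (cy)

theorem eq_replicate_one {l : List (Fin 2)} (h : l.count 1 = l.length) :
    l = List.replicate l.length 1 := by
  rw [List.eq_replicate_iff]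
  refine ⟨rfl, fun x hx => ?_⟩
  rw [List.count_eq_length] at h
  exact (h x hx).symm

/-- The vanishing of the cyclic systems with `2 ≤ D < w`. -/
theorem NSys.eq_zero_of_win
    (win : ∀ (B r : ℕ) (q : List ℕ → ZMod 2), QSys B r q → 2 ≤ r → 3 ≤ B →
      ∀ l : List ℕ, l.length = r → q l = 0)
    {w D : ℕ} {N : List (Fin 2) → ZMod 2} (h : NSys w D N) (hD : 2 ≤ D) (hDw : D < w)
    (W : List (Fin 2)) : N W = 0 := by
  apply h.eq_zero_of_ab hDw.le
  intro l hl _
  exact win _ _ _ (h.qsys (r := w + 1 - D) (by omega)) (by omega) (by omega) l hl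

theorem cleansing_of {w : ℕ} (hw : 3 ≤ w)
    (hN : ∀ c ∈ redM w 2, (∀ v : List ℕ, c (cy v) = 0) → ∀ d, 1 ≤ d → d < w →
      (∀ l : List (Fin 2), l.count 1 < d → c l = 0) →
      ∃ N, NSys w (d + 1) N ∧ ∀ W : List (Fin 2), W.count 1 = d → N (1 :: W) = c W)
    (win : ∀ (B r : ℕ) (q : List ℕ → ZMod 2), QSys B r q → 2 ≤ r → 3 ≤ B →
      ∀ l : List ℕ, l.length = r → q l = 0) : Cleansing w := by
  intro c hc hv
  have key : ∀ d : ℕ, ∀ l : List (Fin 2), l.count 1 = d → c l = 0 := by
    intro d
    induction d using Nat.strong_induction_on with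
    | _ d ih =>
      intro l hl
      by_cases hlw : l.length = w
      swap
      · exact redM_length hc hlw
      rcases Nat.eq_zero_or_pos d with h0 | h0
      · rw [h0] at hl
        rw [eq_replicate_of_count hl]
        exact redM_zeros hc _
      by_cases hdw : d < w
      · obtain ⟨N, h1, h2⟩ := hN c hc hv d h0 hdw (fun l hl => ih _ hl l rfl)
        rw [← h2 l hl]
        by_cases hd : d + 1 < w
        · exact h1.eq_zero_of_win win (by omega) hd _
        · have h3 : d + 1 = w := by omega
          rw [h3] at h1
          exact h1.r_one (by omega) _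
      · have h4 : l.count 1 ≤ l.length := List.count_le_length
        have h5 : l.count 1 = l.length := by omega
        rw [eq_replicate_one h5]
        exact redM_ones hc _
  funext l
  exact key _ l rfl

end Pool.Agent.ECV
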