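import Pool.Agent.ECK.Theta

/-!
# The lowest depth part of the cyclic function

Let `c ∈ redM w 2` vanish on the words with less than `d` letters `1`.  Then `Nf c` vanishes on the
words with at most `d` letters `1`, `Nf c (1 :: W) = c W` if `W` has `d` letters `1`, and the part
`N` of `Nf c` with `d + 1` letters `1` satisfies the harmonic relations `bt (w + 2) V N = 0`.
-/

set_option autoImplicit false

namespace Pool.Agent.ECV

open Pool.Agent.ECK
open Pool.Agent.ECB (redM)

/-- The part with `m` letters `1`. -/
def dpart (m : ℕ) (g : Fn) : Fn := fun W => if W.count 1 = m then g W else 0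

theorem kapW_low (W : List (Fin 2)) (g : Fn) (d : ℕ) (hg : ∀ l, l.count 1 < d → g l = 0)
    (hW : W.count 1 < d) : kapW W g = 0 := by
  induction W generalizing g d with
  | nil => exact hg [] hW
  | cons a W ih =>
    rw [kapW]
    have h0 : kapW W (dq 0 g) = 0 := by
      apply ih (dq 0 g) d
      · intro l hl
        apply hg
        rw [List.count_cons_of_ne (by decide)]
        exact hl
      · rcases (by omega : a.val = 0 ∨ a.val = 1) with h | h
        · have : a = 0 := Fin.ext h
          rw [this, List.count_cons_of_ne (by decide)] at hW
          exact hW
        · have : a = 1 := Fin.ext h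
          rw [this, List.count_cons_self] at hW
          omega
    rw [h0, zero_add]
    split_ifs with ha
    · rw [ha, List.count_cons_self] at hW
      apply ih (dq 1 g) (d - 1)
      · intro l hl
        apply hg
        rw [List.count_cons_self]
        omega
      · omega
    · rfl

theorem kapW_eq (W : List (Fin 2)) (g : Fn) (d : ℕ) (hg : ∀ l, l.count 1 < d → g l = 0)
    (hW : W.count 1 = d) : kapW W g = g W := by
  induction W generalizing g d with
  | nil => rfl
  | cons a W ih =>
    rw [kapW]
    rcases (by omega : a.val = 0 ∨ a.val = 1) with h | h
    · have ha : a = 0 := Fin.ext h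
      subst ha
      rw [List.count_cons_of_ne (by decide)] at hW
      rw [if_neg (by decide), add_zero]
      apply ih (dq 0 g) d _ hW
      intro l hl
      apply hg
      rw [List.count_cons_of_ne (by decide)]
      exact hl
    · have ha : a = 1 := Fin.ext h
      subst ha
      rw [List.count_cons_self] at hW
      rw [if_pos rfl, kapW_low W (dq 0 g) d _ (by omega), zero_add]
      · apply ih (dq 1 g) (d - 1) _ (by omega)
        intro l hl
        apply hg
        rw [List.count_cons_self]
        omega
      · intro l hl
        apply hg
        rw [List.count_cons_of_ne (by decide)]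
        exact hl

/-- `Nf c (1 :: W) = c W` in the lowest depth. -/
theorem Nf_one_cons {c : Fn} {d : ℕ} (hd : ∀ l : List (Fin 2), l.count 1 < d → c l = 0)
    {W : List (Fin 2)} (hW : W.count 1 = d) : Nf c (1 :: W) = c W := by
  show (if (1 : Fin 2) = 0 then c W else 0) + kapW W c = c W
  rw [if_neg (by decide), zero_add, kapW_eq W c d hd hW]

/-- `Nf c` vanishes on the words with at most `d` letters `1`. -/
theorem Nf_low {c : Fn} {d : ℕ} (hd : ∀ l : List (Fin 2), l.count 1 < d → c l = 0)
    {W : List (Fin 2)} (hW : W.count 1 ≤ d) : Nf c W = 0 := by
  rcases W with _ | ⟨a, W⟩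
  · rfl
  · rcases (by omega : a.val = 0 ∨ a.val = 1) with h | h
    · have ha : a = 0 := Fin.ext h
      subst ha
      rw [List.count_cons_of_ne (by decide)] at hW
      show (if (0 : Fin 2) = 0 then c W else 0) + kapW W c = 0
      rw [if_pos rfl]
      rcases Nat.lt_or_ge (W.count 1) d with h1 | h1
      · rw [kapW_low W c d hd h1, hd W h1, add_zero]
      · rw [kapW_eq W c d hd (by omega)]
        exact F_add_self _
    · have ha : a = 1 := Fin.ext h
      subst ha
      rw [List.count_cons_self] at hW
      show (if (1 : Fin 2) = 0 then c W else 0) + kapW W c = 0
      rw [if_neg (by decide), zero_add]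
      exact kapW_low W c d hd (by omega)

theorem bt_congr (M : ℕ) (V : List (Fin 2)) {g h : Fn}
    (hgh : ∀ t : List (Fin 2), t.count 0 = V.count 0 → g t = h t) : bt M V g = bt M V h := by
  induction V generalizing g h with
  | nil => exact hgh [] rfl
  | cons a V ih =>
    rcases (by omega : a.val = 0 ∨ a.val = 1) with h' | h'
    · have ha : a = 0 := Fin.ext h'
      subst ha
      show bt M V (dq 0 g) = bt M V (dq 0 h)
      apply ih
      intro t ht
      apply hgh
      rw [List.count_cons_self, List.count_cons_self, ht]
    · have ha : a = 1 := Fin.ext h'
      subst ha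
      show bt M V (Yq M (dq 1 g)) = bt M V (Yq M (dq 1 h))
      apply ih
      intro t ht
      apply Finset.sum_congr rfl
      intro k _
      apply hgh
      rw [List.count_cons_of_ne (by decide), List.count_cons_of_ne (by decide), List.count_append,
        List.count_replicate, ht]
      simp

theorem bt_zero_fun (M : ℕ) (V : List (Fin 2)) : bt M V (fun _ => 0) = 0 := by
  induction V with
  | nil => rfl
  | cons a V ih =>
    rcases (by omega : a.val = 0 ∨ a.val = 1) with h' | h'
    · have ha : a = 0 := Fin.ext h'
      subst ha
      exact ih
    · have ha : a = 1 := Fin.ext h'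
      subst ha
      show bt M V (Yq M (dq 1 (fun _ => 0))) = 0
      have e : Yq M (dq 1 (fun _ => 0)) = fun _ => 0 := by
        funext t
        show ∑ k ∈ Finset.range M, (0 : F) = 0
        exact Finset.sum_const_zero
      rw [e]
      exact ih

theorem th_zero_of (M : ℕ) (V : List (Fin 2)) {g : Fn}
    (hg : ∀ t : List (Fin 2), V.count 0 ≤ t.count 0 → g t = 0) : th M V g = 0 := by
  induction V generalizing g with
  | nil => exact hg [] le_rfl
  | cons a V ih =>
    rcases (by omega : a.val = 0 ∨ a.val = 1) with h' | h'
    · have ha : a = 0 := Fin.ext h'
      subst ha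
      show th M V (dq 0 g) = 0
      apply ih
      intro t ht
      apply hg
      rw [List.count_cons_self, List.count_cons_self]
      omega
    · have ha : a = 1 := Fin.ext h'
      subst ha
      have hV : ((1 : Fin 2) :: V).count 0 = V.count 0 := List.count_cons_of_ne (by decide)
      rw [hV] at hg
      rw [th_one, ih, ih, add_zero]
      · intro t ht
        apply Finset.sum_eq_zero
        intro k _
        apply hg
        rw [List.count_cons_self, List.count_cons_of_ne (by decide), List.count_append]
        omega
      · intro t ht
        apply Finset.sum_eq_zero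
        intro k _
        apply hg
        rw [List.count_cons_of_ne (by decide), List.count_append]
        omega

theorem th_eq_bt (M : ℕ) (V : List (Fin 2)) {g : Fn}
    (hg : ∀ t : List (Fin 2), V.count 0 < t.count 0 → g t = 0) : th M V g = bt M V g := by
  induction V generalizing g with
  | nil => rfl
  | cons a V ih =>
    rcases (by omega : a.val = 0 ∨ a.val = 1) with h' | h'
    · have ha : a = 0 := Fin.ext h'
      subst ha
      show th M V (dq 0 g) = bt M V (dq 0 g)
      apply ih
      intro t ht
      apply hg
      rw [List.count_cons_self, List.count_cons_self]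
      omega
    · have ha : a = 1 := Fin.ext h'
      subst ha
      have hV : ((1 : Fin 2) :: V).count 0 = V.count 0 := List.count_cons_of_ne (by decide)
      rw [hV] at hg
      rw [th_one, bt_one, ih, th_zero_of, add_zero]
      · intro t ht
        apply Finset.sum_eq_zero
        intro k _
        apply hg
        rw [List.count_cons_self, List.count_cons_of_ne (by decide), List.count_append]
        omega
      · intro t ht
        apply Finset.sum_eq_zero
        intro k _
        apply hg
        rw [List.count_cons_of_ne (by decide), List.count_append]
        omega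

theorem count_zero_add_one (l : List (Fin 2)) : l.count 0 + l.count 1 = l.length := by
  induction l with
  | nil => rfl
  | cons a l ih =>
    rcases (by omega : a.val = 0 ∨ a.val = 1) with h' | h'
    · have ha : a = 0 := Fin.ext h'
      subst ha
      rw [List.count_cons_self, List.count_cons_of_ne (by decide), List.length_cons]
      omega
    · have ha : a = 1 := Fin.ext h'
      subst ha
      rw [List.count_cons_self, List.count_cons_of_ne (by decide), List.length_cons]
      omega

/-- The harmonic relations for the lowest depth part of `Nf c`. -/
theorem har {w d : ℕ} {c : Fn} (hc : c ∈ redM w 2) (hw : 2 ≤ w)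
    (hd : ∀ l : List (Fin 2), l.count 1 < d → c l = 0) (hc0 : cdep w c = 0)
    (V : List (Fin 2)) (h0 : 0 ∈ V) (h1 : 1 ∈ V) (hV : V.length < w + 1) :
    bt (w + 2) V (dpart (d + 1) (Nf c)) = 0 := by
  by_cases h : V.count 0 + (d + 1) = w + 1
  · have e1 : th (w + 2) V (Nf c) = 0 := by
      rw [Etheta hc hw V h0 h1, hc0, mul_zero, ite_self, add_zero]
      exact Nf_length hc (by omega)
    rw [← e1, th_eq_bt]
    · apply bt_congr
      intro t ht
      show (if t.count 1 = d + 1 then Nf c t else 0) = Nf c t
      split_ifs with h2
      · rfl
      · symm
        apply Nf_length hc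
        have := count_zero_add_one t
        omega
    · intro t ht
      by_cases h2 : t.length = w + 1
      · apply Nf_low hd
        have := count_zero_add_one t
        omega
      · exact Nf_length hc h2
  · rw [← bt_zero_fun (w + 2) V]
    apply bt_congr
    intro t ht
    show (if t.count 1 = d + 1 then Nf c t else 0) = 0
    split_ifs with h2
    · apply Nf_length hc
      have := count_zero_add_one t
      omega
    · rfl

end Pool.Agent.ECV
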