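import Pool.Agent.ECV.NSys
import Pool.Agent.ECV.QSys

/-!
# Harmonicity in the slots

The harmonic relations `har` of an `NSys` (the words `V[b ↦ ∑_{k} b^{k+1}]` are killed) give, by
homogeneity, `q (∏ (1 + z u_j) R_j(x_j)) = q (∏ R_j(x_j))` for the slot functional `q`, when `q` is
invariant under the translations of the values.  Main theorem: `hm_of`.
-/

set_option autoImplicit false

namespace Pool.Agent.ECV

open Pool.Agent.ECB Finset

namespace HmAux

open Pool.Agent.ECK (bt Yq dq)

section
variable {S : Type*} [CommRing S] [Algebra (ZMod 2) S]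

/-- `g(V[b ↦ ∑_{k<M} z^k b^{k+1}])`, with values in `S`. -/
def btz (z : S) (M : ℕ) : List (Fin 2) → (List (Fin 2) → ZMod 2) → S
  | [], g => algebraMap (ZMod 2) S (g [])
  | a :: V, g => if a = 0 then btz z M V (fun t => g (0 :: t))
      else ∑ k ∈ range M, z ^ k * btz z M V (fun t => g (1 :: (List.replicate k 1 ++ t)))

omit [Algebra (ZMod 2) S] in
theorem Ev_shrink (gs : List (ℕ → S)) (K : List ℕ → S) {B B' : ℕ} (h : B ≤ B')
    (hK : ∀ l : List ℕ, (∃ k ∈ l, B ≤ k) → K l = 0) : Ev B' gs K = Ev B gs K := by
  induction gs generalizing K with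
  | nil => rfl
  | cons g gs ih =>
    rw [Ev_cons, Ev_cons]
    have h1 : ∑ k ∈ range B', g k * Ev B' gs (fun l => K (k :: l)) =
        ∑ k ∈ range B, g k * Ev B' gs (fun l => K (k :: l)) := by
      symm
      apply sum_subset (range_subset_range.2 h)
      intro k _ hk
      have : Ev B' gs (fun l => K (k :: l)) = 0 := by
        apply Ev_eq_zero
        intro l _ _
        apply hK
        exact ⟨k, by simp, by simpa using hk⟩
      rw [this, mul_zero]
    rw [h1]
    apply sum_congr rfl
    intro k _
    rw [ih]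
    rintro l ⟨i, hi, hBi⟩
    exact hK _ ⟨i, by simp [hi], hBi⟩

theorem two_eq_zero' : (2 : S) = 0 := by
  have h : (algebraMap (ZMod 2) S) 2 = 0 := by
    have : (2 : ZMod 2) = 0 := by decide
    rw [this, map_zero]
  rwa [map_ofNat] at h

theorem btz_zero (z : S) (M : ℕ) (V : List (Fin 2)) : btz z M V (fun _ => 0) = 0 := by
  induction V with
  | nil => simp [btz]
  | cons a V ih =>
    rw [btz]
    split_ifs
    · exact ih
    · simp [ih]

theorem bt_zero' (M : ℕ) (V : List (Fin 2)) : bt M V (fun _ => 0) = 0 := by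
  induction V with
  | nil => rfl
  | cons a V ih =>
    rw [bt]
    split_ifs
    · exact ih
    · have : Yq M (dq 1 (fun _ => (0 : ZMod 2))) = fun _ => 0 := by
        funext t; simp [Yq, dq]
      rw [this]; exact ih

theorem bt_add' (M : ℕ) (V : List (Fin 2)) (g h : List (Fin 2) → ZMod 2) :
    bt M V (fun t => g t + h t) = bt M V g + bt M V h := by
  induction V generalizing g h with
  | nil => rfl
  | cons a V ih =>
    rw [bt, bt, bt]
    split_ifs
    · exact ih _ _
    · have : Yq M (dq 1 (fun t => g t + h t)) = fun t => Yq M (dq 1 g) t + Yq M (dq 1 h) t := by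
        funext t; simp [Yq, dq, sum_add_distrib]
      rw [this]; exact ih _ _

theorem bt_sum' (M : ℕ) (V : List (Fin 2)) {ι : Type*} (s : Finset ι)
    (g : ι → List (Fin 2) → ZMod 2) :
    bt M V (fun t => ∑ i ∈ s, g i t) = ∑ i ∈ s, bt M V (g i) := by
  classical
  induction s using Finset.induction_on with
  | empty => simp [bt_zero']
  | insert i s hi ih =>
    rw [sum_insert hi, ← ih, ← bt_add']
    congr 1
    funext t
    rw [sum_insert hi]

theorem bt_one' (M : ℕ) (V : List (Fin 2)) (g : List (Fin 2) → ZMod 2) :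
    bt M (1 :: V) g = ∑ k ∈ range M, bt M V (fun t => g (1 :: (List.replicate k 1 ++ t))) := by
  rw [← bt_sum']
  rfl

/-- `g` is supported on words of length `n`. -/
def Hom (n : ℤ) (g : List (Fin 2) → ZMod 2) : Prop := ∀ t, (t.length : ℤ) ≠ n → g t = 0

theorem Hom.cons {n : ℤ} {g : List (Fin 2) → ZMod 2} (hg : Hom n g) (a : Fin 2) :
    Hom (n - 1) (fun t => g (a :: t)) := by
  intro t ht
  apply hg
  rw [List.length_cons]
  push_cast
  omega

theorem Hom.one {n : ℤ} {g : List (Fin 2) → ZMod 2} (hg : Hom n g) (k : ℕ) :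
    Hom (n - 1 - k) (fun t => g (1 :: (List.replicate k 1 ++ t))) := by
  intro t ht
  apply hg
  rw [List.length_cons, List.length_append, List.length_replicate]
  push_cast
  omega

theorem btz_hom (z : S) (M : ℕ) (V : List (Fin 2)) (n : ℤ) (g : List (Fin 2) → ZMod 2)
    (hg : Hom n g) :
    (∀ k : ℕ, n = V.length + k → btz z M V g = z ^ k * algebraMap (ZMod 2) S (bt M V g)) ∧
    (n < V.length → btz z M V g = 0 ∧ bt M V g = 0) := by
  induction V generalizing n g with
  | nil =>
    refine ⟨?_, ?_⟩
    · intro k hk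
      rw [btz, bt]
      rcases Nat.eq_zero_or_pos k with rfl | h0
      · simp
      · have : g [] = 0 := by
          apply hg
          simp only [List.length_nil] at hk ⊢
          push_cast at hk ⊢
          omega
        simp [this]
    · intro hn
      have : g [] = 0 := by
        apply hg
        simp only [List.length_nil] at hn ⊢
        push_cast at hn ⊢
        omega
      rw [btz, bt]
      simp [this]
  | cons a V ih =>
    by_cases ha : a = 0
    · subst ha
      have h1 : btz z M (0 :: V) g = btz z M V (fun t => g (0 :: t)) := rfl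
      have h2 : bt M (0 :: V) g = bt M V (fun t => g (0 :: t)) := rfl
      obtain ⟨h3, h4⟩ := ih (n - 1) _ (hg.cons 0)
      rw [h1, h2]
      refine ⟨fun k hk => h3 k ?_, fun hn => h4 ?_⟩
      · rw [List.length_cons] at hk; push_cast at hk; omega
      · rw [List.length_cons] at hn; push_cast at hn; omega
    · have ha1 : a = 1 := by omega
      subst ha1
      have h1 : btz z M (1 :: V) g =
          ∑ k ∈ range M, z ^ k * btz z M V (fun t => g (1 :: (List.replicate k 1 ++ t))) := rfl
      rw [h1, bt_one']
      refine ⟨fun k hk => ?_, fun hn => ?_⟩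
      · rw [map_sum, mul_sum]
        apply sum_congr rfl
        intro j _
        obtain ⟨h3, h4⟩ := ih (n - 1 - j) _ (hg.one j)
        rcases le_or_gt j k with hjk | hjk
        · obtain ⟨i, rfl⟩ := Nat.exists_eq_add_of_le hjk
          rw [h3 i (by rw [List.length_cons] at hk; push_cast at hk; omega), pow_add, mul_assoc]
        · obtain ⟨h5, h6⟩ := h4 (by rw [List.length_cons] at hk; push_cast at hk; omega)
          rw [h5, h6]
          simp
      · have h5 : ∀ j ∈ range M, btz z M V (fun t => g (1 :: (List.replicate j 1 ++ t))) = 0 ∧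
            bt M V (fun t => g (1 :: (List.replicate j 1 ++ t))) = 0 := by
          intro j _
          exact (ih (n - 1 - j) _ (hg.one j)).2
            (by rw [List.length_cons] at hn; push_cast at hn; omega)
        refine ⟨sum_eq_zero fun j hj => ?_, sum_eq_zero fun j hj => (h5 j hj).2⟩
        rw [(h5 j hj).1, mul_zero]

theorem bt_full' {M : ℕ} (hM : 1 ≤ M) (V : List (Fin 2)) (n : ℤ) (g : List (Fin 2) → ZMod 2)
    (hg : Hom n g) (hn : n = V.length) : bt M V g = g V := by
  induction V generalizing n g with
  | nil => rfl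
  | cons a V ih =>
    by_cases ha : a = 0
    · subst ha
      have h2 : bt M (0 :: V) g = bt M V (fun t => g (0 :: t)) := rfl
      rw [h2, ih (n - 1) _ (hg.cons 0) (by rw [List.length_cons] at hn; push_cast at hn; omega)]
    · have ha1 : a = 1 := by omega
      subst ha1
      rw [bt_one', sum_eq_single 0]
      · rw [ih (n - 1 - (0 : ℕ)) _ (hg.one 0)
          (by rw [List.length_cons] at hn; push_cast at hn ⊢; omega)]
        rfl
      · intro j _ hj
        exact ((btz_hom (0 : ZMod 2) M V (n - 1 - j) _ (hg.one j)).2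
          (by rw [List.length_cons] at hn; push_cast at hn; omega)).2
      · intro h
        exact absurd (mem_range.2 hM) h

theorem bt_no1 (M : ℕ) (V : List (Fin 2)) (g : List (Fin 2) → ZMod 2) (hV : (1 : Fin 2) ∉ V) :
    bt M V g = g V := by
  induction V generalizing g with
  | nil => rfl
  | cons a V ih =>
    have ha : a = 0 := by
      have : a ≠ 1 := fun h => hV (by simp [h])
      omega
    subst ha
    have h2 : bt M (0 :: V) g = bt M V (fun t => g (0 :: t)) := rfl
    rw [h2, ih _ (fun h => hV (by simp [h]))]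

/-- The functional on the lists of exponents with values of `btz`. -/
private def AA (z : S) (M B : ℕ) (gs : List (ℕ → S)) (k : ℕ) (h : List (Fin 2) → ZMod 2) : S :=
  Ev B gs (fun l => btz z M (List.replicate k 1 ++ ab l) h)

private theorem AA_zero (z : S) (M B : ℕ) (gs : List (ℕ → S)) (k : ℕ) :
    AA z M B gs k (fun _ => 0) = 0 := by
  rw [AA]
  simp only [btz_zero]
  exact Ev_zero B gs

private theorem AA_succ (z : S) (M B : ℕ) (gs : List (ℕ → S)) (k : ℕ)
    (h : List (Fin 2) → ZMod 2) : AA z M B gs (k + 1) h =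
      ∑ j ∈ range M, z ^ j * AA z M B gs k (fun t => h (List.replicate (j + 1) 1 ++ t)) := by
  have h1 : (fun l => btz z M (List.replicate (k + 1) 1 ++ ab l) h) = fun l =>
      ∑ j ∈ range M, z ^ j * btz z M (List.replicate k 1 ++ ab l)
        (fun t => h (List.replicate (j + 1) 1 ++ t)) := by
    funext l
    rfl
  rw [AA, h1, Ev_sum]
  apply sum_congr rfl
  intro j _
  rw [Ev_smul]
  rfl

private theorem AA_rec (z : S) (M B : ℕ) (gs : List (ℕ → S)) (k : ℕ)
    (h : List (Fin 2) → ZMod 2) (hM : (fun t => h (List.replicate (M + 1) 1 ++ t)) = fun _ => 0) :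
    AA z M B gs (k + 1) h = AA z M B gs k (fun t => h (1 :: t)) +
      z * AA z M B gs (k + 1) (fun t => h (1 :: t)) := by
  rw [AA_succ, AA_succ, mul_sum]
  have h1 : ∑ j ∈ range (M + 1), z ^ j *
      AA z M B gs k (fun t => h (List.replicate (j + 1) 1 ++ t)) =
      ∑ j ∈ range M, z ^ j * AA z M B gs k (fun t => h (List.replicate (j + 1) 1 ++ t)) := by
    rw [sum_range_succ, hM, AA_zero, mul_zero, add_zero]
  rw [← h1, sum_range_succ', add_comm]
  congr 1
  · rw [pow_zero, one_mul]
    rfl
  · apply sum_congr rfl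
    intro j _
    rw [pow_succ, ← mul_assoc, mul_comm z]
    rfl

private theorem tw_succ (z t : S) (k : ℕ) : tw z (t + z) (k + 1) =
    (t + z) * tw z (t + z) k - (if k = 0 then z else 0) := by
  have h2 : (2 : S) = 0 := two_eq_zero'
  cases k with
  | zero =>
    simp only [tw, if_true]
    linear_combination z * h2
  | succ k =>
    simp only [tw, Nat.succ_ne_zero, if_false]
    ring

private theorem slot (z t : S) (M B : ℕ) (gs : List (ℕ → S)) (L : ℕ) :
    ∀ (B' : ℕ) (h : List (Fin 2) → ZMod 2),
      (∀ m, L ≤ m → (fun t => h (List.replicate m 1 ++ t)) = fun _ => 0) → L ≤ M → L ≤ B' →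
      ∑ k ∈ range B', t ^ k * AA z M B gs k h =
        ∑ k ∈ range B', tw z (t + z) k *
          AA z M B gs 0 (fun t => h (List.replicate k 1 ++ t)) := by
  induction L with
  | zero =>
    intro B' h hh _ _
    have h0 : h = fun _ => 0 := hh 0 (le_refl 0)
    have h1 : ∀ k, (fun t => h (List.replicate k 1 ++ t)) = fun _ => 0 :=
      fun k => hh k (Nat.zero_le k)
    rw [sum_eq_zero, sum_eq_zero]
    · intro k _; rw [h1, AA_zero, mul_zero]
    · intro k _; rw [h0, AA_zero, mul_zero]
  | succ L ih =>
    intro B' h hh hM hB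
    obtain ⟨C, rfl⟩ : ∃ C, B' = C + 1 := ⟨B' - 1, by omega⟩
    have hh' : ∀ m, L ≤ m →
        (fun t => (fun t => h (1 :: t)) (List.replicate m 1 ++ t)) = fun _ => 0 := by
      intro m hm
      exact hh (m + 1) (by omega)
    have e1 := ih C (fun t => h (1 :: t)) hh' (by omega) (by omega)
    have e2 := ih (C + 1) (fun t => h (1 :: t)) hh' (by omega) (by omega)
    rw [sum_range_succ (n := C) (f := fun k => tw z (t + z) k * _)] at e2
    rw [hh' C (by omega), AA_zero, mul_zero, add_zero] at e2
    rw [sum_range_succ'] at e2 ⊢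
    rw [pow_zero, one_mul] at e2 ⊢
    have hMh : (fun t => h (List.replicate (M + 1) 1 ++ t)) = fun _ => 0 := hh (M + 1) (by omega)
    have e3 : ∑ k ∈ range C, t ^ (k + 1) * AA z M B gs (k + 1) h =
        t * ∑ k ∈ range C, t ^ k * AA z M B gs k (fun t => h (1 :: t)) +
        z * ∑ k ∈ range C, t ^ (k + 1) * AA z M B gs (k + 1) (fun t => h (1 :: t)) := by
      rw [mul_sum, mul_sum, ← sum_add_distrib]
      apply sum_congr rfl
      intro k _
      rw [AA_rec z M B gs k h hMh]
      ring
    rw [e3, e1]
    rw [sum_range_succ' (fun k => tw z (t + z) k *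
      AA z M B gs 0 (fun t => h (List.replicate k 1 ++ t)))]
    have e4 : ∑ k ∈ range C, tw z (t + z) (k + 1) *
        AA z M B gs 0 (fun t => h (List.replicate (k + 1) 1 ++ t)) =
        (t + z) * ∑ k ∈ range C, tw z (t + z) k *
          AA z M B gs 0 (fun t => (fun t => h (1 :: t)) (List.replicate k 1 ++ t)) -
        z * AA z M B gs 0 (fun t => h (1 :: t)) := by
      rcases Nat.eq_zero_or_pos C with hC | hC
      · subst hC
        have : (fun t => h (1 :: t)) = fun _ => 0 := hh' 0 (by omega)
        rw [this, AA_zero]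
        simp
      · have e5 : z * AA z M B gs 0 (fun t => h (1 :: t)) =
            ∑ k ∈ range C, (if k = 0 then z else 0) *
              AA z M B gs 0 (fun t => (fun t => h (1 :: t)) (List.replicate k 1 ++ t)) := by
          rw [sum_eq_single 0]
          · rw [if_pos rfl]; rfl
          · intro k _ hk; rw [if_neg hk, zero_mul]
          · intro h0; exact absurd (mem_range.2 hC) h0
        rw [e5, mul_sum, ← sum_sub_distrib]
        apply sum_congr rfl
        intro k _
        rw [tw_succ, sub_mul, mul_assoc]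
        rfl
    rw [e4]
    have e6 : tw z (t + z) 0 * AA z M B gs 0 (fun t => h (List.replicate 0 1 ++ t)) =
        AA z M B gs 0 h := by
      rw [tw, one_mul]; rfl
    rw [e6]
    linear_combination z * e2

/-- The substitution `b ↦ b(1 - zb)⁻¹` in the slots. -/
theorem Ev_btz (z : S) (M B L : ℕ) (hM : L ≤ M) (hB : L ≤ B) (v : List S)
    (g : List (Fin 2) → ZMod 2) (hg : ∀ t, L ≤ t.length → g t = 0) :
    Ev B (v.map pw) (fun l => btz z M (ab l) g) =
      Ev B (v.map (fun t => tw z (t + z))) (fun l => algebraMap (ZMod 2) S (g (ab l))) := by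
  induction v generalizing g with
  | nil => rfl
  | cons t v ih =>
    rw [List.map_cons, List.map_cons, Ev_cons, Ev_cons]
    have h1 : ∑ k ∈ range B, pw t k * Ev B (v.map pw) (fun l => btz z M (ab (k :: l)) g) =
        ∑ k ∈ range B, t ^ k * AA z M B (v.map pw) k (fun t => g (0 :: t)) := by
      apply sum_congr rfl
      intro k _
      rfl
    rw [h1, slot z t M B (v.map pw) L B _ ?_ hM hB]
    · apply sum_congr rfl
      intro k _
      congr 1
      have := ih (fun t => g (0 :: (List.replicate k 1 ++ t))) ?_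
      · exact this
      · intro s hs
        apply hg
        rw [List.length_cons, List.length_append]
        omega
    · intro m hm
      funext s
      apply hg
      rw [List.length_cons, List.length_append, List.length_replicate]
      omega

theorem zero_mem_ab {l : List ℕ} (hl : l ≠ []) : (0 : Fin 2) ∈ ab l := by
  cases l with
  | nil => exact absurd rfl hl
  | cons k l => simp [ab]

theorem btz_ab (z : S) (w : ℕ) (N : List (Fin 2) → ZMod 2)
    (hlen : ∀ W, W.length ≠ w + 1 → N W = 0)
    (har : ∀ V : List (Fin 2), (0 : Fin 2) ∈ V → (1 : Fin 2) ∈ V → V.length < w + 1 →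
      bt (w + 2) V N = 0) {l : List ℕ} (hl : l ≠ []) :
    btz z (w + 2) (ab l) N = algebraMap (ZMod 2) S (N (ab l)) := by
  have hN : Hom ((w : ℤ) + 1) N := by
    intro t ht
    apply hlen
    intro h
    apply ht
    rw [h]
    push_cast
    rfl
  obtain ⟨h1, h2⟩ := btz_hom z (w + 2) (ab l) _ N hN
  rcases lt_trichotomy (ab l).length (w + 1) with h | h | h
  · obtain ⟨k, hk⟩ := Nat.exists_eq_add_of_lt h
    rw [h1 (k + 1) (by push_cast; omega), hlen _ (by omega)]
    have : bt (w + 2) (ab l) N = 0 := by
      by_cases h1 : (1 : Fin 2) ∈ ab l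
      · exact har _ (zero_mem_ab hl) h1 h
      · rw [bt_no1 _ _ _ h1, hlen _ (by omega)]
    rw [this]
    simp
  · rw [h1 0 (by push_cast; omega), bt_full' (by omega) (ab l) _ N hN (by omega)]
    simp
  · rw [(h2 (by omega)).1, hlen _ (by omega), map_zero]

/-- Harmonicity: `q (∏ (1 + z u_j) R_j(x_j)) = q (∏ R_j(x_j))`. -/
theorem hm_of (w D B : ℕ) (hB : D < B) (N : List (Fin 2) → ZMod 2)
    (hlen : ∀ W, W.length ≠ w + 1 → N W = 0)
    (hdep : ∀ W : List (Fin 2), W.count 1 ≠ D → N W = 0)
    (har : ∀ V : List (Fin 2), (0 : Fin 2) ∈ V → (1 : Fin 2) ∈ V → V.length < w + 1 →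
      bt (w + 2) V N = 0)
    (z : S) (v : List S) (hv : v ≠ [])
    (ti : ∀ v' : List S, v'.length = v.length →
      Ev B (v'.map (fun x => pw (x + z))) (fun l => algebraMap (ZMod 2) S (N (ab l))) =
      Ev B (v'.map pw) (fun l => algebraMap (ZMod 2) S (N (ab l)))) :
    Ev B (v.map (tw z)) (fun l => algebraMap (ZMod 2) S (N (ab l))) =
      Ev B (v.map pw) (fun l => algebraMap (ZMod 2) S (N (ab l))) := by
  have h2 : (2 : S) = 0 := two_eq_zero'
  -- the bound
  have hbd : ∀ l : List ℕ, (∃ k ∈ l, D + 1 ≤ k) → algebraMap (ZMod 2) S (N (ab l)) = 0 := by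
    rintro l ⟨k, hk, hDk⟩
    rw [hdep, map_zero]
    have : k ≤ (ab l).count 1 := by
      clear hDk
      induction l with
      | nil => simp at hk
      | cons i l ih =>
        have e : (ab (i :: l)).count 1 = i + (ab l).count 1 := by
          rw [ab, List.count_cons, List.count_append, List.count_replicate]
          simp
        rw [e]
        rcases List.mem_cons.1 hk with rfl | hk
        · omega
        · have := ih hk
          omega
    omega
  have hshr : ∀ (gs : List (ℕ → S)) (B' : ℕ), D + 1 ≤ B' →
      Ev B' gs (fun l => algebraMap (ZMod 2) S (N (ab l))) =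
      Ev B gs (fun l => algebraMap (ZMod 2) S (N (ab l))) := by
    intro gs B' hB'
    rw [Ev_shrink gs _ hB' hbd, Ev_shrink gs _ (show D + 1 ≤ B from hB) hbd]
  -- the main identity
  have key : ∀ v' : List S, v' ≠ [] →
      Ev B (v'.map (fun t => tw z (t + z))) (fun l => algebraMap (ZMod 2) S (N (ab l))) =
      Ev B (v'.map pw) (fun l => algebraMap (ZMod 2) S (N (ab l))) := by
    intro v' hv'
    have hC : D + 1 ≤ w + 2 + D := by omega
    rw [← hshr _ _ hC, ← hshr _ _ hC, ← Ev_btz z (w + 2) (w + 2 + D) (w + 2) (le_refl _)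
      (by omega) v' N (fun t ht => hlen _ (by omega))]
    apply Ev_congr
    intro l hl _
    apply btz_ab z w N hlen har
    intro h
    apply hv'
    rw [h, List.length_map] at hl
    exact List.eq_nil_of_length_eq_zero hl.symm
  have hzz : ∀ t : S, t + z + z = t := by
    intro t
    linear_combination z * h2
  have k1 := key (v.map (· + z)) (by simpa using hv)
  rw [List.map_map, List.map_map] at k1
  have e1 : ((fun t => tw z (t + z)) ∘ fun x => x + z) = (tw z : S → ℕ → S) := by
    funext t
    simp only [Function.comp_apply, hzz]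
  have e2 : (pw ∘ fun x => x + z) = fun x : S => pw (x + z) := rfl
  rw [e1, e2, ti v rfl] at k1
  exact k1

end

end HmAux

/-- Harmonicity of the slot functional of an `NSys` (module 0b). -/
theorem NSys.hm {w D : ℕ} {N : List (Fin 2) → ZMod 2} (h : NSys w D N) {B : ℕ} (hB : D < B)
    {S : Type*} [CommRing S] [Algebra (ZMod 2) S] (z : S) (v : List S) (hv : v ≠ [])
    (ti : ∀ v' : List S, v'.length = v.length →
      Ev B (v'.map (fun x => pw (x + z))) (fun l => algebraMap (ZMod 2) S (N (ab l))) =
      Ev B (v'.map pw) (fun l => algebraMap (ZMod 2) S (N (ab l)))) :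
    Ev B (v.map (tw z)) (fun l => algebraMap (ZMod 2) S (N (ab l))) =
      Ev B (v.map pw) (fun l => algebraMap (ZMod 2) S (N (ab l))) :=
  HmAux.hm_of w D B hB N h.len h.dep h.har z v hv ti

end Pool.Agent.ECV
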